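import Pool.Agent.Shared.Type2.Basic

/-!
Discrete represented types and the closure lemmas of `TD`, tagged for `fun_prop`.
-/

namespace Pool.Agent.Shared.Type2

open Encodable

/-- The representation of `Y` is computably equivalent to its coding by numbers. -/
class Disc (Y : Type) [Rep Y] [Primcodable Y] : Prop where
  enc : TD (encode : Y → ℕ)
  dec : ∃ d : ℕ → Y, TD d ∧ ∀ y, d (encode y) = y

theorem TD.nat_nat {g : ℕ → ℕ} (hg : Computable g) : TD g :=
  C1.map (F := fun (x : ℕ) => nm x) hg C1.orc

theorem disc_of_enc {Y : Type} [Primcodable Y] [Inhabited Y] :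
    @Disc Y ⟨fun a _ => encode a⟩ _ := by
  let _ : Rep Y := ⟨fun a _ => encode a⟩
  refine ⟨C1.orc (X := Y), fun n => (decode n).getD default, ?_, fun y => by simp⟩
  have : Computable fun n : ℕ => encode ((decode n : Option Y).getD default) :=
    (Primrec.encode.comp (Primrec.option_getD.comp Primrec.decode (Primrec.const default))).to_comp
  exact TD.nat_nat this

instance : Disc ℕ := disc_of_enc
instance : Disc Bool := disc_of_enc
instance : Disc Unit := disc_of_enc
instance {Y : Type} [Primcodable Y] : Disc (List Y) := disc_of_enc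
instance {Y : Type} [Primcodable Y] : Disc (Option Y) := disc_of_enc

variable {X X' : Type} [Rep X] [Rep X']

theorem TD.npair {f g : X → ℕ} (hf : TD f) (hg : TD g) : TD fun x => Nat.pair (f x) (g x) :=
  C1.pair (F := fun x _ => f x) (G := fun x _ => g x) hf hg

instance {Y Z : Type} [Rep Y] [Primcodable Y] [Disc Y] [Rep Z] [Primcodable Z] [Disc Z] :
    Disc (Y × Z) := by
  obtain ⟨d, hd, hd'⟩ := Disc.dec (Y := Y)
  obtain ⟨e, he, he'⟩ := Disc.dec (Y := Z)
  refine ⟨?_, fun n => (d n.unpair.1, e n.unpair.2), ?_,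
    fun ⟨y, z⟩ => by simp [hd', he']⟩
  · exact TD.npair (Disc.enc.comp' (TD.fst TD.id')) (Disc.enc.comp' (TD.snd TD.id'))
  · exact (hd.comp' (TD.nat_nat (Primrec.fst.comp Primrec.unpair).to_comp)).pair
      (he.comp' (TD.nat_nat (Primrec.snd.comp Primrec.unpair).to_comp))

variable {Y Z W : Type} [Rep Y] [Primcodable Y] [Disc Y] [Rep Z] [Primcodable Z] [Disc Z]
  [Rep W] [Primcodable W] [Disc W]

namespace TD

theorem of_computable {g : Y → Z} (hg : Computable g) : TD g := by
  obtain ⟨e, he, he'⟩ := Disc.dec (Y := Z)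
  have h1 : Computable fun n : ℕ => ((decode n : Option Y).map fun y => encode (g y)).getD 0 :=
    Computable.option_getD (Computable.option_map Computable.decode
      (Computable.encode.comp (hg.comp Computable.snd)).to₂) (Computable.const 0)
  exact (he.comp' ((nat_nat h1).comp' Disc.enc)).of_eq fun y => by simp [he']

theorem of_primrec {g : Y → Z} (hg : Primrec g) : TD g := of_computable hg.to_comp

theorem prim {g : Y → Z} (hg : Primrec g) {f : X → Y} (hf : TD f) : TD fun x => g (f x) :=
  (of_primrec hg).comp' hf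

theorem prim₂ {g : Y → Z → W} (hg : Primrec₂ g) {f : X → Y} {f' : X → Z} (hf : TD f)
    (hf' : TD f') : TD fun x => g (f x) (f' x) :=
  (of_primrec hg).comp' (hf.pair hf')

theorem computable {g : Y → Z} (hg : TD g) : Computable g := by
  obtain ⟨d, hd, hd'⟩ := Disc.dec (Y := Y)
  have h1 : TD fun p : Unit × ℕ => encode (g (d p.2)) :=
    Disc.enc.comp' (hg.comp' (hd.comp' (snd id')))
  obtain ⟨e, he⟩ := C1.curry (F := fun (_ : Unit) n => encode (g (d n))) h1
  have h2 : Nat.Partrec (e.eval ((nm () : B) : ℕ →. ℕ)) :=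
    (e.recursiveIn _).partrec_of_oracle fun o ho => by
      rw [Set.mem_singleton_iff.1 ho]
      exact Partrec.nat_iff.1 (Computable.const (α := ℕ) (encode ())).partrec
  have h3 : Computable fun n => encode (g (d n)) :=
    (Partrec.nat_iff.2 h2).of_eq_tot fun n => he () n
  exact Computable.encode_iff.1 ((h3.comp Computable.encode).of_eq fun y => by rw [hd'])

@[fun_prop] theorem const (c : Y) : TD fun _ : X => c := by
  have h0 : TD fun _ : X => (0 : ℕ) := C1.ofComp (Computable.const 0)
  exact prim (Primrec.const c) h0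

end TD

/-- Application of an element of Baire space. -/
def ap (z : B) (n : ℕ) : ℕ := z n

@[simp] theorem ap_def (z : B) (n : ℕ) : ap z n = z n := rfl

/-- Abstraction into Baire space. -/
def lam (F : ℕ → ℕ) : B := F

@[simp] theorem lam_def (F : ℕ → ℕ) : lam F = F := rfl

/-- Primitive recursion. -/
def nrec {Y : Type} (n : ℕ) (b : Y) (h : ℕ → Y → Y) : Y := Nat.rec b h n

@[simp] theorem nrec_zero {Y : Type} (b : Y) (h : ℕ → Y → Y) : nrec 0 b h = b := rfl
@[simp] theorem nrec_succ {Y : Type} (n : ℕ) (b : Y) (h : ℕ → Y → Y) :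
    nrec (n + 1) b h = h n (nrec n b h) := rfl

namespace TD

@[fun_prop] theorem ap' {f : X → B} {g : X → ℕ} (hf : TD f) (hg : TD g) :
    TD fun x => ap (f x) (g x) :=
  C1.comp (F := f) (G := fun x _ => g x) hf hg

@[fun_prop] theorem lam' {F : X → ℕ → ℕ} (hF : TD fun p : X × ℕ => F p.1 p.2) :
    TD fun x => lam (F x) := C1.curry hF

@[fun_prop] theorem jn' {f g : X → B} (hf : TD f) (hg : TD g) : TD fun x => jn (f x) (g x) :=
  C1.join hf hg

theorem nm' : TD fun x : X => (nm x : B) := C1.orc

@[fun_prop] theorem cond' {c : X → Bool} {f g : X → X'} (hc : TD c) (hf : TD f) (hg : TD g) :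
    TD fun x => cond (c x) (f x) (g x) :=
  (C1.sel hc hg hf).of_eq fun x n => by
    change (if encode (c x) = 0 then _ else _) = nm (cond (c x) (f x) (g x)) n
    cases c x <;> rfl

@[fun_prop] theorem ite' {p : X → Prop} {inst : ∀ x, Decidable (p x)} {f g : X → X'}
    (hp : TD fun x => @decide (p x) (inst x)) (hf : TD f) (hg : TD g) :
    TD fun x => @ite _ (p x) (inst x) (f x) (g x) :=
  (hp.cond' hf hg).of_eq fun x => by simp

attribute [fun_prop] npair

@[fun_prop] theorem unpair' {f : X → ℕ} (hf : TD f) : TD fun x => Nat.unpair (f x) :=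
  prim Primrec.unpair hf
@[fun_prop] theorem succ' {f : X → ℕ} (hf : TD f) : TD fun x => Nat.succ (f x) :=
  prim Primrec.succ hf
@[fun_prop] theorem add {f g : X → ℕ} (hf : TD f) (hg : TD g) : TD fun x => f x + g x :=
  prim₂ Primrec.nat_add hf hg
@[fun_prop] theorem sub {f g : X → ℕ} (hf : TD f) (hg : TD g) : TD fun x => f x - g x :=
  prim₂ Primrec.nat_sub hf hg
@[fun_prop] theorem mul {f g : X → ℕ} (hf : TD f) (hg : TD g) : TD fun x => f x * g x :=
  prim₂ Primrec.nat_mul hf hg
@[fun_prop] theorem div {f g : X → ℕ} (hf : TD f) (hg : TD g) : TD fun x => f x / g x :=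
  prim₂ Primrec.nat_div hf hg
@[fun_prop] theorem mod {f g : X → ℕ} (hf : TD f) (hg : TD g) : TD fun x => f x % g x :=
  prim₂ Primrec.nat_mod hf hg
@[fun_prop] theorem pow {f g : X → ℕ} (hf : TD f) (hg : TD g) : TD fun x => f x ^ g x :=
  prim₂ (Primrec₂.unpaired'.1 Nat.Primrec.pow) hf hg
@[fun_prop] theorem max' {f g : X → ℕ} (hf : TD f) (hg : TD g) : TD fun x => max (f x) (g x) :=
  prim₂ Primrec.nat_max hf hg
@[fun_prop] theorem min' {f g : X → ℕ} (hf : TD f) (hg : TD g) : TD fun x => min (f x) (g x) :=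
  prim₂ Primrec.nat_min hf hg

@[fun_prop] theorem not' {f : X → Bool} (hf : TD f) : TD fun x => !(f x) := prim Primrec.not hf
@[fun_prop] theorem and' {f g : X → Bool} (hf : TD f) (hg : TD g) : TD fun x => f x && g x :=
  prim₂ Primrec.and hf hg
@[fun_prop] theorem or' {f g : X → Bool} (hf : TD f) (hg : TD g) : TD fun x => f x || g x :=
  prim₂ Primrec.or hf hg
@[fun_prop] theorem xor' {f g : X → Bool} (hf : TD f) (hg : TD g) :
    TD fun x => xor (f x) (g x) :=
  prim₂ (Primrec.dom_bool₂ xor) hf hg
@[fun_prop] theorem toNat' {f : X → Bool} (hf : TD f) : TD fun x => (f x).toNat :=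
  prim (Primrec.dom_bool Bool.toNat) hf

@[fun_prop] theorem decide_eq {f g : X → Y} {inst : ∀ x, Decidable (f x = g x)} (hf : TD f)
    (hg : TD g) : TD fun x => @decide (f x = g x) (inst x) := by
  classical
  exact (prim₂ (Primrec.eq (α := Y)).decide hf hg).of_eq fun x => by simp

@[fun_prop] theorem decide_ne {f g : X → Y} {inst : ∀ x, Decidable (f x ≠ g x)} (hf : TD f)
    (hg : TD g) : TD fun x => @decide (f x ≠ g x) (inst x) := by
  classical
  exact (decide_eq (inst := fun _ => inferInstance) hf hg).not'.of_eq fun x => by simp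

@[fun_prop] theorem beq' [BEq Y] [LawfulBEq Y] {f g : X → Y} (hf : TD f) (hg : TD g) :
    TD fun x => f x == g x := by
  classical
  exact (decide_eq (inst := fun _ => inferInstance) hf hg).of_eq fun x => by
    by_cases h : f x = g x <;> simp [h]

@[fun_prop] theorem decide_lt {f g : X → ℕ} {inst : ∀ x, Decidable (f x < g x)} (hf : TD f)
    (hg : TD g) : TD fun x => @decide (f x < g x) (inst x) :=
  (prim₂ Primrec.nat_lt.decide hf hg).of_eq fun x => by simp

@[fun_prop] theorem decide_le {f g : X → ℕ} {inst : ∀ x, Decidable (f x ≤ g x)} (hf : TD f)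
    (hg : TD g) : TD fun x => @decide (f x ≤ g x) (inst x) :=
  (prim₂ Primrec.nat_le.decide hf hg).of_eq fun x => by simp

@[fun_prop] theorem decide_bool {f : X → Bool} {inst : ∀ x, Decidable (f x = true)} (hf : TD f) :
    TD fun x => @decide (f x = true) (inst x) := hf.of_eq fun x => by simp

@[fun_prop] theorem encode' {f : X → Y} (hf : TD f) : TD fun x => encode (f x) :=
  Disc.enc.comp' hf
@[fun_prop] theorem decode' {V : Type} [Primcodable V] {f : X → ℕ} (hf : TD f) :
    TD fun x => (decode (f x) : Option V) := prim Primrec.decode hf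

@[fun_prop] theorem some' {f : X → Y} (hf : TD f) : TD fun x => some (f x) :=
  prim Primrec.option_some hf
@[fun_prop] theorem getD' {f : X → Option Y} {g : X → Y} (hf : TD f) (hg : TD g) :
    TD fun x => (f x).getD (g x) := prim₂ Primrec.option_getD hf hg
@[fun_prop] theorem isSome' {V : Type} [Primcodable V] {f : X → Option V} (hf : TD f) :
    TD fun x => (f x).isSome := prim Primrec.option_isSome hf

@[fun_prop] theorem elim' {o : X → Option Y} {g : X → X'} {h : X → Y → X'} (ho : TD o)
    (hg : TD g) (hh : TD fun p : X × Y => h p.1 p.2) : TD fun x => (o x).elim (g x) (h x) := by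
  obtain ⟨d, -, -⟩ := Disc.dec (Y := Y)
  have h1 : TD fun x => h x ((o x).getD (d 0)) :=
    hh.comp' (f := fun x => (x, (o x).getD (d 0))) (id'.pair (ho.getD' (const _)))
  exact (ho.isSome'.cond' h1 hg).of_eq fun x => by cases o x <;> rfl

@[fun_prop] theorem obind {V : Type} [Primcodable V] {o : X → Option Y} {h : X → Y → Option V}
    (ho : TD o) (hh : TD fun p : X × Y => h p.1 p.2) : TD fun x => (o x).bind (h x) :=
  (ho.elim' (const none) hh).of_eq fun x => by cases o x <;> rfl

@[fun_prop] theorem omap {o : X → Option Y} {h : X → Y → Z}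
    (ho : TD o) (hh : TD fun p : X × Y => h p.1 p.2) : TD fun x => (o x).map (h x) :=
  (ho.elim' (const none) hh.some').of_eq fun x => by cases o x <;> rfl

theorem nrec_nat {f g : X → ℕ} {h : X → ℕ → ℕ → ℕ} (hf : TD f) (hg : TD g)
    (hh : TD fun p : X × ℕ × ℕ => h p.1 p.2.1 p.2.2) : TD fun x => nrec (f x) (g x) (h x) := by
  have h1 : C1 fun (x : X) (k : ℕ) => h x k.unpair.2.unpair.1 k.unpair.2.unpair.2 :=
    C1.curry (hh.comp' (f := fun p : X × ℕ => (p.1, p.2.unpair.2.unpair.1, p.2.unpair.2.unpair.2))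
      (by fun_prop))
  have h2 := (C1.prec (F := fun x _ => g x) hg h1).uncurry
  exact (h2.comp' (f := fun x => (x, Nat.pair 0 (f x))) (by fun_prop)).of_eq fun x => by
    simp [nrec]

@[fun_prop] theorem nrec' {f : X → ℕ} {g : X → Y} {h : X → ℕ → Y → Y} (hf : TD f) (hg : TD g)
    (hh : TD fun p : X × ℕ × Y => h p.1 p.2.1 p.2.2) : TD fun x => nrec (f x) (g x) (h x) := by
  obtain ⟨d, hd, hd'⟩ := Disc.dec (Y := Y)
  have h1 : TD fun p : X × ℕ × ℕ => encode (h p.1 p.2.1 (d p.2.2)) :=
    (hh.comp' (f := fun p : X × ℕ × ℕ => (p.1, p.2.1, d p.2.2)) (by fun_prop)).encode'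
  have h2 := nrec_nat (h := fun x n k => encode (h x n (d k))) hf hg.encode' h1
  refine (hd.comp' h2).of_eq fun x => ?_
  induction f x with
  | zero => simp [hd']
  | succ n ih => simp only [nrec_succ, hd', ih]

theorem find' {c : X → ℕ → Bool} (hc : TD fun p : X × ℕ => c p.1 p.2)
    (h : ∀ x, ∃ n, c x n = true) : TD fun x => Nat.find (h x) := by
  have h1 : C1 fun (x : X) (k : ℕ) => (!c x k.unpair.2).toNat :=
    C1.curry ((hc.comp' (f := fun p : X × ℕ => (p.1, p.2.unpair.2)) (by fun_prop)).not'.toNat')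
  have h2 : ∀ (x : X) (a : ℕ), ∃ n, (!c x (Nat.pair a n).unpair.2).toNat = 0 := fun x a => by
    obtain ⟨n, hn⟩ := h x
    exact ⟨n, by simp [hn]⟩
  refine (h1.find h2).of_eq fun x a => ?_
  change _ = Nat.find (h x)
  congr 1
  funext n
  simp

section lists

variable {V : Type} [Primcodable V]

@[fun_prop] theorem cons {f : X → Y} {g : X → List Y} (hf : TD f) (hg : TD g) :
    TD fun x => f x :: g x := prim₂ Primrec.list_cons hf hg
@[fun_prop] theorem append {f g : X → List V} (hf : TD f) (hg : TD g) :
    TD fun x => f x ++ g x := prim₂ Primrec.list_append hf hg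
@[fun_prop] theorem length {f : X → List V} (hf : TD f) : TD fun x => (f x).length :=
  prim Primrec.list_length hf
@[fun_prop] theorem tail {f : X → List V} (hf : TD f) : TD fun x => (f x).tail :=
  prim Primrec.list_tail hf
@[fun_prop] theorem head? {f : X → List V} (hf : TD f) : TD fun x => (f x).head? :=
  prim Primrec.list_head? hf
@[fun_prop] theorem reverse {f : X → List V} (hf : TD f) : TD fun x => (f x).reverse :=
  prim Primrec.list_reverse hf
@[fun_prop] theorem take {n : X → ℕ} {f : X → List V} (hn : TD n) (hf : TD f) :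
    TD fun x => (f x).take (n x) := prim₂ Primrec.list_take hn hf
@[fun_prop] theorem drop {n : X → ℕ} {f : X → List V} (hn : TD n) (hf : TD f) :
    TD fun x => (f x).drop (n x) := prim₂ Primrec.list_drop hn hf
@[fun_prop] theorem getElem? {n : X → ℕ} {f : X → List V} (hn : TD n) (hf : TD f) :
    TD fun x => (f x)[n x]? := prim₂ Primrec.list_getElem? hf hn
@[fun_prop] theorem lgetD {n : X → ℕ} {f : X → List Y} {d : X → Y} (hn : TD n) (hf : TD f)
    (hd : TD d) : TD fun x => (f x).getD (n x) (d x) :=
  ((getElem? hn hf).getD' hd).of_eq fun x => by simp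
@[fun_prop] theorem range {n : X → ℕ} (hn : TD n) : TD fun x => List.range (n x) :=
  prim Primrec.list_range hn

@[fun_prop] theorem foldl {l : X → List Y} {b : X → Z} {h : X → Z → Y → Z} (hl : TD l)
    (hb : TD b) (hh : TD fun p : X × Z × Y => h p.1 p.2.1 p.2.2) :
    TD fun x => (l x).foldl (h x) (b x) := by
  have h1 : TD fun p : (X × ℕ × Z) × Y => h p.1.1 p.1.2.2 p.2 :=
    hh.comp' (f := fun p : (X × ℕ × Z) × Y => (p.1.1, p.1.2.2, p.2)) (by fun_prop)
  have h2 : TD fun x => nrec (l x).length (b x)
      (fun i s => ((l x)[i]?).elim s fun y => h x s y) :=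
    nrec' hl.length hb (elim' (by fun_prop) (by fun_prop) h1)
  refine h2.of_eq fun x => ?_
  have : ∀ n ≤ (l x).length, nrec n (b x) (fun i s => ((l x)[i]?).elim s fun y => h x s y) =
      ((l x).take n).foldl (h x) (b x) := by
    intro n hn
    induction n with
    | zero => simp
    | succ n ih =>
      rw [nrec_succ, ih (by omega), List.take_add_one, List.foldl_append,
        List.getElem?_eq_getElem (by omega)]
      simp
  rw [this _ le_rfl, List.take_length]

@[fun_prop] theorem foldr {l : X → List Y} {b : X → Z} {h : X → Y → Z → Z} (hl : TD l)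
    (hb : TD b) (hh : TD fun p : X × Y × Z => h p.1 p.2.1 p.2.2) :
    TD fun x => (l x).foldr (h x) (b x) :=
  (foldl (h := fun x s y => h x y s) hl.reverse hb
    (hh.comp' (f := fun p : X × Z × Y => (p.1, p.2.2, p.2.1)) (by fun_prop))).of_eq fun x => by
    simp

@[fun_prop] theorem flatMap {l : X → List Y} {h : X → Y → List V} (hl : TD l)
    (hh : TD fun p : X × Y => h p.1 p.2) : TD fun x => (l x).flatMap (h x) := by
  have h1 : TD fun p : X × Y × List V => h p.1 p.2.1 :=
    hh.comp' (f := fun p : X × Y × List V => (p.1, p.2.1)) (by fun_prop)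
  refine (foldr (h := fun x y s => h x y ++ s) hl (const []) (h1.append (by fun_prop))).of_eq
    fun x => ?_
  induction l x with
  | nil => rfl
  | cons a t ih => simp [ih]

@[fun_prop] theorem map {l : X → List Y} {h : X → Y → Z} (hl : TD l)
    (hh : TD fun p : X × Y => h p.1 p.2) : TD fun x => (l x).map (h x) :=
  (flatMap (h := fun x y => [h x y]) hl (hh.cons (const []))).of_eq fun x => by
    simp [List.map_eq_flatMap]

@[fun_prop] theorem all {l : X → List Y} {h : X → Y → Bool} (hl : TD l)
    (hh : TD fun p : X × Y => h p.1 p.2) : TD fun x => (l x).all (h x) := by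
  have h1 : TD fun p : X × Y × Bool => h p.1 p.2.1 :=
    hh.comp' (f := fun p : X × Y × Bool => (p.1, p.2.1)) (by fun_prop)
  refine (foldr (h := fun x y s => h x y && s) hl (const true) (h1.and' (by fun_prop))).of_eq
    fun x => ?_
  induction l x with
  | nil => rfl
  | cons a t ih => simp [ih]

@[fun_prop] theorem any {l : X → List Y} {h : X → Y → Bool} (hl : TD l)
    (hh : TD fun p : X × Y => h p.1 p.2) : TD fun x => (l x).any (h x) :=
  (all (h := fun x y => !h x y) hl hh.not').not'.of_eq fun x => by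
    induction l x with
    | nil => rfl
    | cons a t ih => simp [← ih]

@[fun_prop] theorem replicate {n : X → ℕ} {f : X → Y} (hn : TD n) (hf : TD f) :
    TD fun x => List.replicate (n x) (f x) :=
  (map (h := fun x (_ : ℕ) => f x) hn.range (by fun_prop)).of_eq fun x => by simp

end lists

end TD

end Pool.Agent.Shared.Type2
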