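import Pool.Agent.Shared.Type2.Defs

/-!
Type-two computability: computable maps between represented types, with a `fun_prop` interface.
-/

namespace Pool.Agent.Shared.Type2

open Encodable

abbrev B := ℕ → ℕ

namespace OCode

theorem recursiveIn (e : OCode) (o : ℕ →. ℕ) : Nat.RecursiveIn {o} (e.eval o) := by
  induction e with
  | zero => exact Nat.RecursiveIn.zero
  | succ => exact Nat.RecursiveIn.succ
  | left => exact Nat.RecursiveIn.left
  | right => exact Nat.RecursiveIn.right
  | oracle => exact Nat.RecursiveIn.oracle _ rfl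
  | pair f g hf hg =>
    refine (Nat.RecursiveIn.pair hf hg).of_eq fun n => ?_
    simp [eval, Seq.seq]
  | comp f g hf hg => exact Nat.RecursiveIn.comp hf hg
  | prec f g hf hg => exact Nat.RecursiveIn.prec hf hg
  | rfind f hf => exact Nat.RecursiveIn.rfind hf

theorem exists_of_recursiveIn {o f : ℕ →. ℕ} (h : Nat.RecursiveIn {o} f) :
    ∃ e : OCode, e.eval o = f := by
  induction h with
  | zero => exact ⟨zero, rfl⟩
  | succ => exact ⟨succ, rfl⟩
  | left => exact ⟨left, rfl⟩
  | right => exact ⟨right, rfl⟩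
  | oracle g hg => exact ⟨oracle, (Set.mem_singleton_iff.1 hg).symm⟩
  | pair _ _ hf hg =>
    obtain ⟨f, rfl⟩ := hf
    obtain ⟨g, rfl⟩ := hg
    refine ⟨pair f g, funext fun n => ?_⟩
    simp [eval, Seq.seq]
  | comp _ _ hf hg =>
    obtain ⟨f, rfl⟩ := hf
    obtain ⟨g, rfl⟩ := hg
    exact ⟨comp f g, rfl⟩
  | prec _ _ hf hg =>
    obtain ⟨f, rfl⟩ := hf
    obtain ⟨g, rfl⟩ := hg
    exact ⟨prec f g, rfl⟩
  | rfind _ hf =>
    obtain ⟨f, rfl⟩ := hf
    exact ⟨rfind f, rfl⟩

theorem exists_of_partrec {f : ℕ →. ℕ} (h : Nat.Partrec f) :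
    ∃ e : OCode, ∀ o, e.eval o = f := by
  induction h with
  | zero => exact ⟨zero, fun _ => rfl⟩
  | succ => exact ⟨succ, fun _ => rfl⟩
  | left => exact ⟨left, fun _ => rfl⟩
  | right => exact ⟨right, fun _ => rfl⟩
  | pair _ _ hf hg =>
    obtain ⟨f, hf⟩ := hf
    obtain ⟨g, hg⟩ := hg
    refine ⟨pair f g, fun o => funext fun n => ?_⟩
    simp [eval, Seq.seq, hf, hg]
  | comp _ _ hf hg =>
    obtain ⟨f, hf⟩ := hf
    obtain ⟨g, hg⟩ := hg
    refine ⟨comp f g, fun o => funext fun n => ?_⟩
    simp [eval, hf, hg]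
  | prec _ _ hf hg =>
    obtain ⟨f, hf⟩ := hf
    obtain ⟨g, hg⟩ := hg
    refine ⟨prec f g, fun o => funext fun n => ?_⟩
    simp [eval, hf, hg]
  | rfind _ hf =>
    obtain ⟨f, hf⟩ := hf
    refine ⟨rfind f, fun o => funext fun n => ?_⟩
    simp [eval, hf]

/-- Replace the oracle by a program. -/
def subst : OCode → OCode → OCode
  | zero, _ => zero
  | succ, _ => succ
  | left, _ => left
  | right, _ => right
  | oracle, c => c
  | pair f g, c => pair (subst f c) (subst g c)
  | comp f g, c => comp (subst f c) (subst g c)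
  | prec f g, c => prec (subst f c) (subst g c)
  | rfind f, c => rfind (subst f c)

theorem eval_subst (e c : OCode) (o : ℕ →. ℕ) : (subst e c).eval o = e.eval (c.eval o) := by
  induction e with
  | zero | succ | left | right | oracle => rfl
  | pair f g hf hg => simp only [subst, eval, hf, hg]
  | comp f g hf hg => simp only [subst, eval, hf, hg]
  | prec f g hf hg => simp only [subst, eval, hf, hg]
  | rfind f hf => simp only [subst, eval, hf]

/-- Re-association `((a,b),c) ↦ (a,(b,c))`. -/
def assocR : OCode := pair (comp left left) (pair (comp right left) right)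

/-- Re-association `(a,(b,c)) ↦ ((a,b),c)`. -/
def assocL : OCode := pair (pair left (comp left right)) (comp right right)

theorem eval_assocR (o : ℕ →. ℕ) (a b c : ℕ) :
    assocR.eval o (Nat.pair (Nat.pair a b) c) = Part.some (Nat.pair a (Nat.pair b c)) := by
  simp [assocR, eval]

theorem eval_assocL (o : ℕ →. ℕ) (a n : ℕ) :
    assocL.eval o (Nat.pair a n) =
      Part.some (Nat.pair (Nat.pair a (Nat.unpair n).1) (Nat.unpair n).2) := by
  simp [assocL, eval]

/-- Replace the oracle by a program with a parameter. -/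
def psubst : OCode → OCode → OCode
  | zero, _ => zero
  | succ, _ => comp succ right
  | left, _ => comp left right
  | right, _ => comp right right
  | oracle, c => c
  | pair f g, c => pair (psubst f c) (psubst g c)
  | comp f g, c => comp (psubst f c) (pair left (psubst g c))
  | prec f g, c => comp (prec (psubst f c) (comp (psubst g c) assocR)) assocL
  | rfind f, c => rfind (comp (psubst f c) assocR)

theorem eval_psubst (e c : OCode) (o : ℕ →. ℕ) (a n : ℕ) :
    (psubst e c).eval o (Nat.pair a n) = e.eval (fun m => c.eval o (Nat.pair a m)) n := by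
  induction e generalizing n with
  | zero => rfl
  | succ | left | right => simp [psubst, eval]
  | oracle => rfl
  | pair f g hf hg => simp only [psubst, eval, hf, hg]
  | comp f g hf hg =>
    simp only [psubst, eval, hg, Nat.unpair_pair, Part.bind_some, Part.bind_map, hf]
  | prec f g hf hg =>
    simp only [psubst, eval, eval_assocL, Part.bind_some, Nat.unpair_pair, hf, eval_assocR, hg]
  | rfind f hf =>
    simp only [psubst, eval, eval_assocR, Part.bind_some, hf]

end OCode

open OCode

@[simp] theorem jn_even (x y : B) (n : ℕ) : jn x y (2 * n) = x n := by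
  simp [jn]

@[simp] theorem jn_odd (x y : B) (n : ℕ) : jn x y (2 * n + 1) = y n := by
  have h1 : (2 * n + 1) % 2 = 1 := by omega
  have h2 : (2 * n + 1) / 2 = n := by omega
  simp [jn, h1, h2]

/-- A represented type: every point has a name in Baire space. -/
class Rep (X : Type) where
  nm : X → B

export Rep (nm)

instance repB : Rep B := ⟨fun x => x⟩
instance repNat : Rep ℕ := ⟨fun a _ => encode a⟩
instance repBool : Rep Bool := ⟨fun a _ => encode a⟩
instance repUnit : Rep Unit := ⟨fun a _ => encode a⟩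
instance repList {Y : Type} [Primcodable Y] : Rep (List Y) := ⟨fun a _ => encode a⟩
instance repOption {Y : Type} [Primcodable Y] : Rep (Option Y) := ⟨fun a _ => encode a⟩
instance repProd {X Y : Type} [Rep X] [Rep Y] : Rep (X × Y) := ⟨fun p => jn (nm p.1) (nm p.2)⟩
instance repSub {X : Type} [Rep X] {p : X → Prop} : Rep {x // p x} := ⟨fun x => nm x.1⟩

variable {X Y Z W : Type} [Rep X] [Rep Y] [Rep Z] [Rep W]

/-- `F x` is computed from the name of `x`, uniformly. -/
def C1 (F : X → ℕ → ℕ) : Prop := ∃ e : OCode, ∀ x n, F x n ∈ e.eval (nm x : B) n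

/-- Computable maps between represented types. -/
@[fun_prop] def TD (f : X → Y) : Prop := C1 fun x => nm (f x)

namespace C1

theorem of_eq {F G : X → ℕ → ℕ} (h : C1 F) (H : ∀ x n, F x n = G x n) : C1 G := by
  obtain ⟨e, he⟩ := h
  exact ⟨e, fun x n => H x n ▸ he x n⟩

theorem orc : C1 fun x : X => nm x := ⟨.oracle, fun x n => by simp [eval]⟩

theorem ofComp {g : ℕ → ℕ} (hg : Computable g) : C1 fun (_ : X) n => g n := by
  obtain ⟨e, he⟩ := exists_of_partrec (Partrec.nat_iff.1 hg.partrec)
  exact ⟨e, fun x n => by simp [he]⟩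

theorem comp {F G : X → ℕ → ℕ} (hF : C1 F) (hG : C1 G) : C1 fun x n => F x (G x n) := by
  obtain ⟨e, he⟩ := hF
  obtain ⟨c, hc⟩ := hG
  exact ⟨.comp e c, fun x n => Part.mem_bind (hc x n) (he x _)⟩

theorem pair {F G : X → ℕ → ℕ} (hF : C1 F) (hG : C1 G) :
    C1 fun x n => Nat.pair (F x n) (G x n) := by
  obtain ⟨e, he⟩ := hF
  obtain ⟨c, hc⟩ := hG
  exact ⟨.pair e c, fun x n => Part.mem_bind (he x n) (Part.mem_map _ (hc x n))⟩

theorem map {F : X → ℕ → ℕ} {g : ℕ → ℕ} (hg : Computable g) (hF : C1 F) :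
    C1 fun x n => g (F x n) := (ofComp hg).comp hF

theorem prec {F G : X → ℕ → ℕ} (hF : C1 F) (hG : C1 G) :
    C1 fun x m => Nat.rec (F x m.unpair.1)
      (fun y ih => G x (Nat.pair m.unpair.1 (Nat.pair y ih))) m.unpair.2 := by
  obtain ⟨e, he⟩ := hF
  obtain ⟨c, hc⟩ := hG
  refine ⟨.prec e c, fun x m => ?_⟩
  simp only [eval]
  induction m.unpair.2 with
  | zero => exact he x _
  | succ k ih => exact Part.mem_bind ih (hc x _)

theorem find {F : X → ℕ → ℕ} (hF : C1 F) (h : ∀ x a, ∃ n, F x (Nat.pair a n) = 0) :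
    C1 fun x a => Nat.find (h x a) := by
  obtain ⟨e, he⟩ := hF
  refine ⟨.rfind e, fun x a => ?_⟩
  simp only [eval]
  rw [Nat.mem_rfind]
  refine ⟨?_, fun {m} hm => ?_⟩
  · exact (Part.mem_map_iff _).2 ⟨_, he x _, by simp [Nat.find_spec (h x a)]⟩
  · exact (Part.mem_map_iff _).2 ⟨_, he x _, by simp [Nat.find_min (h x a) hm]⟩

theorem subst {F : Y → ℕ → ℕ} {f : X → Y} (hF : C1 F) (hf : TD f) : C1 fun x => F (f x) := by
  obtain ⟨e, he⟩ := hF
  obtain ⟨c, hc⟩ := hf
  refine ⟨e.subst c, fun x n => ?_⟩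
  rw [eval_subst]
  have : c.eval (nm x : B) = (nm (f x) : B) := funext fun m => Part.eq_some_iff.2 (hc x m)
  rw [this]
  exact he _ _

theorem sel {c F G : X → ℕ → ℕ} (hc : C1 c) (hF : C1 F) (hG : C1 G) :
    C1 fun x n => if c x n = 0 then F x n else G x n := by
  have : Primrec fun k : ℕ => if k.unpair.1 = 0 then k.unpair.2.unpair.1 else k.unpair.2.unpair.2 :=
    Primrec.ite (Primrec.eq.comp (Primrec.fst.comp Primrec.unpair) (Primrec.const 0))
      (Primrec.fst.comp (Primrec.unpair.comp (Primrec.snd.comp Primrec.unpair)))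
      (Primrec.snd.comp (Primrec.unpair.comp (Primrec.snd.comp Primrec.unpair)))
  exact ((hc.pair (hF.pair hG)).map this.to_comp).of_eq fun x n => by simp

theorem join {F G : X → ℕ → ℕ} (hF : C1 F) (hG : C1 G) : C1 fun x => jn (F x) (G x) := by
  have h2 : Computable fun n : ℕ => n / 2 := (Primrec.nat_div.comp Primrec.id (Primrec.const 2)).to_comp
  have h3 : Computable fun n : ℕ => n % 2 := (Primrec.nat_mod.comp Primrec.id (Primrec.const 2)).to_comp
  exact sel (ofComp h3) (hF.comp (ofComp h2)) (hG.comp (ofComp h2))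

end C1

namespace TD

theorem of_eq {f g : X → Y} (h : TD f) (H : ∀ x, f x = g x) : TD g := (funext H : f = g) ▸ h

@[fun_prop] theorem id' : TD fun x : X => x := C1.orc

@[fun_prop] theorem comp' {g : Y → Z} {f : X → Y} (hg : TD g) (hf : TD f) :
    TD fun x => g (f x) := C1.subst (F := fun y => nm (g y)) hg hf

@[fun_prop] theorem pair {f : X → Y} {g : X → Z} (hf : TD f) (hg : TD g) :
    TD fun x => (f x, g x) := C1.join hf hg

@[fun_prop] theorem fst {f : X → Y × Z} (hf : TD f) : TD fun x => (f x).1 := by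
  have h2 : Computable fun n : ℕ => 2 * n := (Primrec.nat_mul.comp (Primrec.const 2) Primrec.id).to_comp
  exact (C1.comp hf (C1.ofComp h2)).of_eq fun x n => jn_even _ _ _

@[fun_prop] theorem snd {f : X → Y × Z} (hf : TD f) : TD fun x => (f x).2 := by
  have h2 : Computable fun n : ℕ => 2 * n + 1 :=
    (Primrec.succ.comp (Primrec.nat_mul.comp (Primrec.const 2) Primrec.id)).to_comp
  exact (C1.comp hf (C1.ofComp h2)).of_eq fun x n => jn_odd _ _ _

@[fun_prop] theorem val {p : Y → Prop} {f : X → {y // p y}} (hf : TD f) : TD fun x => (f x).1 := hf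

theorem sub_mk {p : Y → Prop} {f : X → Y} (hf : TD f) (h : ∀ x, p (f x)) :
    TD fun x => (⟨f x, h x⟩ : {y // p y}) := hf

end TD

theorem C1.uncurry {F : X → ℕ → ℕ} (hF : C1 F) : TD fun p : X × ℕ => F p.1 p.2 := by
  have h1 : C1 fun p : X × ℕ => F p.1 := hF.subst (TD.fst TD.id')
  have h2 : TD fun p : X × ℕ => p.2 := TD.snd TD.id'
  exact h1.comp h2

theorem C1.curry {F : X → ℕ → ℕ} (hF : TD fun p : X × ℕ => F p.1 p.2) : C1 F := by
  obtain ⟨e, he⟩ := hF
  have hl : Computable fun k : ℕ => k.unpair.1 := (Primrec.fst.comp Primrec.unpair).to_comp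
  have h2 : Computable fun k : ℕ => k.unpair.2 / 2 :=
    (Primrec.nat_div.comp (Primrec.snd.comp Primrec.unpair) (Primrec.const 2)).to_comp
  have h3 : Computable fun k : ℕ => k.unpair.2 % 2 :=
    (Primrec.nat_mod.comp (Primrec.snd.comp Primrec.unpair) (Primrec.const 2)).to_comp
  obtain ⟨c, hc⟩ : C1 fun (x : X) k => if k.unpair.2 % 2 = 0 then nm x (k.unpair.2 / 2)
      else k.unpair.1 := C1.sel (C1.ofComp h3) (C1.orc.comp (C1.ofComp h2)) (C1.ofComp hl)
  obtain ⟨d, hd⟩ : C1 fun (_ : X) k => Nat.pair k 0 :=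
    (C1.ofComp Computable.id).pair (C1.ofComp (Computable.const 0))
  refine ⟨.comp (e.psubst c) d, fun x n => Part.mem_bind (hd x n) ?_⟩
  rw [eval_psubst]
  have : (fun m => c.eval (nm x : B) (Nat.pair n m)) = ((nm (x, n) : B) : ℕ →. ℕ) := by
    funext m
    have := hc x (Nat.pair n m)
    simp only [Nat.unpair_pair] at this
    exact Part.eq_some_iff.2 this
  rw [this]
  exact he (x, n) 0

end Pool.Agent.Shared.Type2
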