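import Pool.Agent.Shared.Type2.Kondo

/-!
No `Π¹₁` singleton computes all of them; upper bounds of a countable ideal that avoid a cone.
-/

namespace Pool.Agent.Shared.Type2

open Encodable

/-- A universal step-bounded evaluation. -/
def univ (c : ℕ) (l : List ℕ) (n t : ℕ) : Option ℕ :=
  Nat.Partrec.Code.evaln t (Denumerable.ofNat Nat.Partrec.Code c) (Nat.pair (encode l) n)

@[fun_prop] theorem TD.univ' {X : Type} [Rep X] {c n t : X → ℕ} {l : X → List ℕ} (hc : TD c)
    (hl : TD l) (hn : TD n) (ht : TD t) : TD fun x => univ (c x) (l x) (n x) (t x) := by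
  have : Primrec fun a : ℕ × ℕ × ℕ =>
      Nat.Partrec.Code.evaln a.1 (Denumerable.ofNat Nat.Partrec.Code a.2.1) a.2.2 :=
    Nat.Partrec.Code.primrec_evaln.comp ((Primrec.fst.pair
      ((Primrec.ofNat _).comp (Primrec.fst.comp Primrec.snd))).pair (Primrec.snd.comp Primrec.snd))
  exact TD.prim this (f := fun x => (t x, c x, Nat.pair (encode (l x)) (n x))) (by fun_prop)

/-- An arithmetical form of reducibility. -/
def Rel (a v : B) : Prop :=
  ∃ c : ℕ, ∀ n : ℕ, (∃ q : ℕ × ℕ, univ c (pre a q.1) n q.2 = some (ap v n)) ∧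
    ∀ q : ℕ × ℕ, univ c (pre a q.1) n q.2 = none ∨ univ c (pre a q.1) n q.2 = some (ap v n)

theorem Red.rel {a v : B} (h : Red v a) : Rel a v := by
  obtain ⟨e, he⟩ := red_iff.1 h
  obtain ⟨φ, hφ⟩ := exists_appr e
  have h1 : TD fun k : ℕ => φ (Kondo.node k.unpair.1) k.unpair.2 :=
    hφ.app (by unfold Kondo.node; fun_prop) (by fun_prop)
  obtain ⟨c, hc⟩ := Nat.Partrec.Code.exists_code.1 (Partrec.nat_iff.1 h1.computable.ofOption)
  have h2 : ∀ l n u, (∃ t, univ (encode c) l n t = some u) ↔ φ l n = some u := by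
    intro l n u
    have := Nat.Partrec.Code.evaln_complete (c := c) (n := Nat.pair (encode l) n) (x := u)
    simp only [hc, Nat.unpair_pair, Kondo.node_encode, Part.mem_ofOption, Option.mem_def] at this
    simp [univ, this]
  refine ⟨encode c, fun n => ⟨?_, fun q => ?_⟩⟩
  · obtain ⟨s, hs⟩ := (hφ.iff _ _ _).1 (he n)
    obtain ⟨t, ht⟩ := (h2 _ _ _).2 hs
    exact ⟨(s, t), ht⟩
  · cases hu : univ (encode c) (pre a q.1) n q.2 with
    | none => exact Or.inl rfl
    | some u =>
      have := (hφ.iff _ _ _).2 ⟨_, (h2 _ _ _).1 ⟨_, hu⟩⟩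
      rw [Part.mem_unique this (he n)]
      exact Or.inr rfl

theorem exists_not_rel (a : B) : ∃ v, ¬ Rel a v := by
  classical
  refine ⟨fun n => if h : ∃ u, ∃ q : ℕ × ℕ, univ n (pre a q.1) n q.2 = some u then h.choose + 1
    else 0, ?_⟩
  rintro ⟨c, hc⟩
  obtain ⟨⟨q, hq⟩, h2⟩ := hc c
  have h : ∃ u, ∃ q : ℕ × ℕ, univ c (pre a q.1) c q.2 = some u := ⟨_, q, hq⟩
  obtain ⟨q', hq'⟩ := h.choose_spec
  have := h2 q'
  rw [hq', ap_def, dif_pos h] at this
  simp at this

theorem Sing.exists_not_red {y : B} (hy : Sing y) : ∃ y', Sing y' ∧ ¬ Red y' y := by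
  have hS : Sig fun z : B => ev z ≠ y ∨ Rel (ev z) (od z) := by
    unfold Rel
    exact (hy.comp (f := ev) (by fun_prop)).or (Sig.ex (Sig.all (Sig.and
      (Sig.ex (Sig.eq (by fun_prop) (by fun_prop)))
      (Sig.all (Sig.or (Sig.eq (by fun_prop) (by fun_prop))
        (Sig.eq (by fun_prop) (by fun_prop)))))))
  obtain ⟨v, hv⟩ := exists_not_rel y
  obtain ⟨z, hz, hz'⟩ := hS.exists_sing ⟨Type2.jn y v, by simpa using hv⟩
  push Not at hz
  refine ⟨z, hz', fun h => hz.2 ?_⟩
  rw [hz.1]
  exact (((TD.od' TD.id').red z).trans h).rel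

theorem exists_sing : ∃ y, Sing y :=
  ((Sig.bool (c := fun _ : B => false) (by fun_prop)).exists_sing ⟨fun _ => 0, by simp⟩).imp
    fun _ h => h.2

/-- The places that are frozen at stage `k` with length `s`. -/
def Fz (k s p : ℕ) : Prop := p < s ∨ p.unpair.1 < k

instance (k s p : ℕ) : Decidable (Fz k s p) := by unfold Fz; infer_instance

theorem avoid_step {J : Set B} (hJ1 : ∀ f g, Red f g → g ∈ J → f ∈ J)
    (hJ2 : ∀ f ∈ J, ∀ g ∈ J, jn f g ∈ J) {α : B} (hα : α ∉ J) {y : B} (hy : y ∈ J) (e : OCode)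
    (k : ℕ) (b : J × ℕ) : ∃ b' : J × ℕ, b.2 ≤ b'.2 ∧ (∀ p, Fz k b.2 p → b'.1.1 p = b.1.1 p) ∧
      (∀ p, b'.2 ≤ p → p.unpair.1 = k → b'.1.1 p = y p.unpair.2) ∧
      ∀ γ : B, (∀ p, Fz (k + 1) b'.2 p → γ p = b'.1.1 p) → ¬ ∀ n, α n ∈ e.eval γ n := by
  obtain ⟨⟨β, hβ⟩, s⟩ := b
  obtain ⟨φ, hφ⟩ := exists_appr e
  have hmem : ∀ L : List ℕ, (lam fun p => if p < L.length then L.getD p 0 else
      if p.unpair.1 < k then ap β p else ap y p.unpair.2) ∈ J := by
    intro L
    have : TD fun z : B × B => lam fun p => if p < L.length then L.getD p 0 else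
      if p.unpair.1 < k then ap z.1 p else ap z.2 p.unpair.2 := by fun_prop
    exact hJ1 _ _ (this.red (β, y)) (hJ2 _ hβ _ hy)
  by_cases H : ∃ γ : B, (∀ p, Fz k s p → γ p = β p) ∧ ∃ n t v, φ (pre γ t) n = some v ∧ v ≠ α n
  · obtain ⟨γ, hγ, n, t, v, h1, h2⟩ := H
    refine ⟨(⟨_, hmem (pre γ (max s t))⟩, max s t), le_max_left _ _, fun p hp => ?_,
      fun p hp hk => ?_, fun γ' hγ' h => h2 ?_⟩
    · simp only [lam_def, pre_length, ap_def]
      split_ifs with h3 h4
      · rw [pre_getD _ h3, hγ p hp]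
      · rfl
      · rcases hp with hp | hp
        · exact absurd (hp.trans_le (le_max_left _ _)) h3
        · exact absurd hp h4
    · simp only [lam_def, pre_length, ap_def]
      rw [if_neg (not_lt.2 hp), if_neg (by omega)]
    · have : pre γ' t = pre γ t := pre_congr fun i hi => by
        have hi' : i < max s t := hi.trans_le (le_max_right _ _)
        rw [hγ' i (Or.inl hi')]
        simp only [lam_def, pre_length]
        rw [if_pos hi', pre_getD _ hi']
      exact Part.mem_unique ((hφ.iff _ _ _).2 ⟨t, this ▸ h1⟩) (h n)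
  · have hfz : ∀ p, Fz k s p → (lam fun p => if p < (pre β s).length then (pre β s).getD p 0 else
        if p.unpair.1 < k then ap β p else ap y p.unpair.2) p = β p := by
      intro p hp
      simp only [lam_def, pre_length, ap_def]
      split_ifs with h3 h4
      · rw [pre_getD _ h3]
      · rfl
      · exact absurd hp (not_or.2 ⟨h3, h4⟩)
    refine ⟨(⟨_, hmem (pre β s)⟩, s), le_rfl, hfz, fun p hp hk => ?_, fun γ' hγ' h => hα ?_⟩
    · simp only [lam_def, pre_length, ap_def]
      rw [if_neg (not_lt.2 hp), if_neg (by omega)]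
    · refine hJ1 _ _ ?_ hβ
      have hγβ : ∀ p, Fz k s p → γ' p = β p := fun p hp => by
        rw [hγ' p (hp.imp id fun h => by omega)]
        exact hfz p hp
      set c : Pt1 β × ℕ → ℕ → Bool := fun x m =>
        ((List.range (Kondo.node m).length).all fun i =>
          (!(decide (i < s) || decide (i.unpair.1 < k))) ||
            (Kondo.node m).getD i 0 == ap x.1.1 i) && (φ (Kondo.node m) x.2).isSome with hc
      have hnode : ∀ {X : Type} [Rep X] {n : X → ℕ}, TD n → TD fun a => Kondo.node (n a) :=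
        fun hn => by unfold Kondo.node; fun_prop
      have hcT : TD fun p : (Pt1 β × ℕ) × ℕ => c p.1 p.2 := by
        refine TD.and' (TD.all (hnode (by fun_prop)).length.range (TD.or' (by fun_prop)
          (TD.beq' (TD.lgetD (by fun_prop) (hnode (by fun_prop)) (by fun_prop)) (by fun_prop))))
          (hφ.app (hnode (by fun_prop)) (by fun_prop)).isSome'
      have hex : ∀ x, ∃ m, c x m = true := by
        rintro ⟨⟨_, rfl⟩, n⟩
        obtain ⟨t, ht⟩ := (hφ.iff _ _ _).1 (h n)
        refine ⟨encode (pre γ' t), ?_⟩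
        simp only [hc, Kondo.node_encode, ht, Option.isSome_some, Bool.and_true, List.all_eq_true,
          List.mem_range, pre_length]
        intro i hi
        by_cases hf : Fz k s i
        · simp [pre_getElem? _ hi, hγβ i hf]
        · simp only [Fz, not_or] at hf
          simp [hf.1, hf.2]
      have h1 : TD fun x : Pt1 β × ℕ => (φ (Kondo.node (Nat.find (hex x))) x.2).getD 0 :=
        (hφ.app (hnode (TD.find' hcT hex)) (by fun_prop)).getD' (by fun_prop)
      rw [red_iff_TD]
      refine (TD.lam' (F := fun x n => (φ (Kondo.node (Nat.find (hex (x, n)))) n).getD 0) h1).of_eq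
        fun x => funext fun n => ?_
      have h2 := Nat.find_spec (hex (x, n))
      simp only [lam_def]
      generalize Nat.find (hex (x, n)) = m at h2 ⊢
      obtain ⟨β', hβ'⟩ := x
      subst β'
      simp only [hc, Bool.and_eq_true, List.all_eq_true, List.mem_range] at h2
      generalize Kondo.node m = l at h2 ⊢
      obtain ⟨v, hv⟩ := Option.isSome_iff_exists.1 h2.2
      rw [hv, Option.getD_some]
      by_contra hne
      refine H ⟨fun i => if i < l.length then l.getD i 0 else β i, fun p hp => ?_, n, l.length, v,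
        ?_, hne⟩
      · by_cases hp' : p < l.length
        · have := h2.1 p hp'
          rcases hp with hp | hp <;> simpa [hp, hp'] using this
        · simp [hp']
      · rw [← hv]
        congr 1
        apply List.ext_getElem?
        intro i
        by_cases hi : i < l.length
        · rw [pre_getElem? _ hi]
          simp [hi]
        · rw [List.getElem?_eq_none (by simpa using hi), List.getElem?_eq_none (by omega)]

/-- Upper bounds of a countable family inside a Turing ideal can avoid a cone. -/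
theorem exists_avoid {J : Set B} (hJ1 : ∀ f g, Red f g → g ∈ J → f ∈ J)
    (hJ2 : ∀ f ∈ J, ∀ g ∈ J, jn f g ∈ J) {α : B} (hα : α ∉ J) {y : ℕ → B} (hy : ∀ i, y i ∈ J) :
    ∃ β, (∀ i, Red (y i) β) ∧ ¬ Red α β := by
  have : Nonempty OCode := ⟨.zero⟩
  obtain ⟨e, he⟩ := exists_surjective_nat OCode
  choose F h1 h2 h3 h4 using fun k b => avoid_step hJ1 hJ2 hα (hy k) (e k) k b
  let b : ℕ → J × ℕ := fun k => Nat.rec (⟨y 0, hy 0⟩, 0) F k
  have hb : ∀ k, b (k + 1) = F k (b k) := fun _ => rfl
  have hst : ∀ k m p, k ≤ m → Fz k (b k).2 p → (b m).1.1 p = (b k).1.1 p ∧ Fz m (b m).2 p := by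
    intro k m p hkm hp
    induction hkm with
    | refl => exact ⟨rfl, hp⟩
    | step _ ih =>
      rename_i m _
      refine ⟨by rw [Nat.succ_eq_add_one, hb, h2 _ _ _ ih.2, ih.1], ?_⟩
      exact ih.2.imp (fun h => h.trans_le (h1 m (b m))) fun h => by omega
  have hβ : ∀ k p, Fz k (b k).2 p → (b (p.unpair.1 + 1)).1.1 p = (b k).1.1 p := by
    intro k p hp
    rw [← (hst k (max k (p.unpair.1 + 1)) p (le_max_left _ _) hp).1,
      (hst _ (max k (p.unpair.1 + 1)) p (le_max_right _ _) (Or.inr (Nat.lt_succ_self _))).1]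
  refine ⟨fun p => (b (p.unpair.1 + 1)).1.1 p, fun i => ?_, fun h => ?_⟩
  · set s := (b (i + 1)).2
    have : TD fun z : B => lam fun n => if n < s then (pre (y i) s).getD n 0
        else ap z (Nat.pair i n) := by fun_prop
    have h5 := this.red fun p => (b (p.unpair.1 + 1)).1.1 p
    have h6 : (lam fun n => if n < s then (pre (y i) s).getD n 0
        else ap (fun p => (b (p.unpair.1 + 1)).1.1 p) (Nat.pair i n)) = y i := by
      funext n
      simp only [lam_def, ap_def, Nat.unpair_pair]
      split_ifs with hn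
      · exact pre_getD _ hn 0
      · have := h3 i (b i) (Nat.pair i n) ((not_lt.1 hn).trans (Nat.right_le_pair _ _)) (by simp)
        simpa using this
    rwa [h6] at h5
  · obtain ⟨c, hc⟩ := red_iff.1 h
    obtain ⟨k, rfl⟩ := he c
    exact h4 k (b k) _ (fun p hp => hβ (k + 1) p hp) hc

end Pool.Agent.Shared.Type2
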