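import Mathlib

/-!
Oracle machines: codes for the constructors of `Nat.RecursiveIn` with one oracle.
-/

namespace Pool.Agent.Shared.Type2

/-- Programs with one oracle; the constructors are those of `Nat.RecursiveIn`. -/
inductive OCode : Type
  | zero : OCode
  | succ : OCode
  | left : OCode
  | right : OCode
  | oracle : OCode
  | pair : OCode → OCode → OCode
  | comp : OCode → OCode → OCode
  | prec : OCode → OCode → OCode
  | rfind : OCode → OCode

/-- The function computed by a program with the oracle `o`. -/
def OCode.eval : OCode → (ℕ →. ℕ) → (ℕ →. ℕ)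
  | .zero, _ => fun _ => Part.some 0
  | .succ, _ => fun n => Part.some (n + 1)
  | .left, _ => fun n => Part.some (Nat.unpair n).1
  | .right, _ => fun n => Part.some (Nat.unpair n).2
  | .oracle, o => o
  | .pair f g, o => fun n => (f.eval o n).bind fun a => (g.eval o n).map fun b => Nat.pair a b
  | .comp f g, o => fun n => (g.eval o n).bind (f.eval o)
  | .prec f g, o => fun p =>
      Nat.rec (f.eval o (Nat.unpair p).1)
        (fun y ih => ih.bind fun i => g.eval o (Nat.pair (Nat.unpair p).1 (Nat.pair y i)))
        (Nat.unpair p).2
  | .rfind f, o => fun a => Nat.rfind fun n => (f.eval o (Nat.pair a n)).map fun m => decide (m = 0)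

/-- The join of two sequences: even places from `x`, odd places from `y`. -/
def jn (x y : ℕ → ℕ) : ℕ → ℕ := fun n => if n % 2 = 0 then x (n / 2) else y (n / 2)

end Pool.Agent.Shared.Type2
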