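import Pool.Agent.Shared.Type2.Sigma

/-!
The basis theorem of Kondo and Addison: a nonempty `Π¹₁` set has a member that is a `Π¹₁`
singleton.
-/

namespace Pool.Agent.Shared.Type2

open Encodable

namespace Kondo

variable (T : B → List ℕ → Bool)

/-- The child relation of the tree of `x`. -/
def ch (x : B) (s' s : List ℕ) : Prop := ∃ k, s' = s ++ [k] ∧ T x s' = true

open Classical in
/-- The rank of a node. -/
noncomputable def rk (x : B) (s : List ℕ) : Ordinal.{0} :=
  if h : WellFounded (ch T x) then (h.apply s).rank else 0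

variable {T}

theorem rk_lt {x : B} (h : WellFounded (ch T x)) {s s' : List ℕ} (hs : ch T x s' s) :
    rk T x s' < rk T x s := by
  simp only [rk, h, dif_pos]
  exact Acc.rank_lt_of_rel _ hs

theorem rk_le {x : B} (h : WellFounded (ch T x)) {s : List ℕ} {a : Ordinal.{0}}
    (hs : ∀ s', ch T x s' s → rk T x s' < a) : rk T x s ≤ a := by
  simp only [rk, h, dif_pos] at hs ⊢
  rw [Acc.rank_eq]
  exact Ordinal.iSup_le fun b => Order.succ_le_of_lt (hs b.1 b.2)

theorem lt_rk {x : B} (h : WellFounded (ch T x)) {s : List ℕ} {a : Ordinal.{0}}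
    (ha : a < rk T x s) : ∃ s', ch T x s' s ∧ a ≤ rk T x s' := by
  by_contra H
  push Not at H
  exact absurd (rk_le h H) (not_le.2 ha)

theorem take_mem (hc : ∀ x σ k, T x (σ ++ [k]) = true → T x σ = true) {x : B} {l : List ℕ}
    (h : T x l = true) (j : ℕ) : T x (l.take j) = true := by
  induction l using List.reverseRecOn with
  | nil => simpa using h
  | append_singleton l k ih =>
    by_cases hj : j ≤ l.length
    · rw [List.take_append_of_le_length hj]
      exact ih (hc _ _ _ h)
    · rw [List.take_of_length_le (by simp; omega)]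
      exact h

theorem wf_iff (hc : ∀ x σ k, T x (σ ++ [k]) = true → T x σ = true) (x : B) :
    WellFounded (ch T x) ↔ ¬ ∃ w : B, ∀ n, T x (pre w n) = true := by
  rw [wellFounded_iff_isEmpty_descending_chain]
  constructor
  · rintro h ⟨w, hw⟩
    exact h.false ⟨fun n => pre w n, fun n => ⟨w n, pre_succ w n, hw _⟩⟩
  · intro h
    refine ⟨fun ⟨f, hf⟩ => h ?_⟩
    have hlen : ∀ n, n ≤ (f n).length := by
      intro n
      induction n with
      | zero => simp
      | succ n ih =>
        obtain ⟨k, hk, -⟩ := hf n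
        rw [hk]; simpa using ih
    have hpre : ∀ m n, m ≤ n → f m <+: f n := by
      intro m n hmn
      induction hmn with
      | refl => exact List.prefix_rfl
      | step _ ih =>
        rename_i n _
        obtain ⟨k, hk, -⟩ := hf n
        rw [hk]
        exact ih.trans (List.prefix_append _ _)
    refine ⟨fun i => (f (i + 1)).getD i 0, fun n => ?_⟩
    have : pre (fun i => (f (i + 1)).getD i 0) n = (f (n + 1)).take n := by
      apply List.ext_getElem?
      intro i
      by_cases hi : i < n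
      · rw [pre_getElem? _ hi, List.getElem?_take_of_lt hi]
        obtain ⟨t, ht⟩ := hpre (i + 1) (n + 1) (by omega)
        have := hlen (i + 1)
        rw [← ht, List.getElem?_append_left (by omega), List.getD_eq_getElem?_getD,
          List.getElem?_eq_getElem (by omega)]
        rfl
      · rw [List.getElem?_eq_none (by simpa using hi), List.getElem?_eq_none (by simp; omega)]
    rw [this]
    exact take_mem hc (hf n).choose_spec.2 n

theorem wf_of_acc (hc : ∀ x σ k, T x (σ ++ [k]) = true → T x σ = true) {x : B}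
    (h : Acc (ch T x) []) : WellFounded (ch T x) := by
  have key : ∀ s, T x s = true → Acc (ch T x) s := by
    intro s
    induction s using List.reverseRecOn with
    | nil => exact fun _ => h
    | append_singleton l k ih => exact fun hs => (ih (hc _ _ _ hs)).inv ⟨k, rfl, hs⟩
  exact ⟨fun s => Acc.intro s fun s' hs' => key s' hs'.choose_spec.2⟩

variable (T) in
/-- The tree of `x'` above `s` is simulated by the tree of `x` above `t`. -/
def Sim (x' x : B) (s t : List ℕ) : Prop :=
  ∃ u : B, ap u (encode (s, t)) = 1 ∧ ∀ q : List ℕ × List ℕ × ℕ,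
    ap u (encode (q.1, q.2.1)) ≠ 1 ∨ T x' (q.1 ++ [q.2.2]) = false ∨
      ∃ k : ℕ, T x (q.2.1 ++ [k]) = true ∧ ap u (encode (q.1 ++ [q.2.2], q.2.1 ++ [k])) = 1

theorem sim_step {x' x : B} {s t s' : List ℕ} (h : Sim T x' x s t) (hs : ch T x' s' s) :
    ∃ t', ch T x t' t ∧ Sim T x' x s' t' := by
  obtain ⟨u, hu, H⟩ := h
  obtain ⟨k, rfl, hk⟩ := hs
  rcases H (s, t, k) with h | h | ⟨k', h1, h2⟩
  · exact absurd hu h
  · simp [hk] at h
  · exact ⟨_, ⟨k', rfl, h1⟩, u, h2, H⟩

theorem sim_acc {x' x : B} (h : WellFounded (ch T x)) (t : List ℕ) :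
    ∀ s, Sim T x' x s t → Acc (ch T x') s := by
  induction t using h.induction with
  | _ t ih =>
    intro s hs
    refine Acc.intro s fun s' hs' => ?_
    obtain ⟨t', h1, h2⟩ := sim_step hs hs'
    exact ih t' h1 s' h2

theorem sim_iff {x' x : B} (h' : WellFounded (ch T x')) (h : WellFounded (ch T x))
    (s t : List ℕ) : Sim T x' x s t ↔ rk T x' s ≤ rk T x t := by
  constructor
  · induction t using h.induction generalizing s with
    | _ t ih =>
      intro hs
      refine rk_le h' fun s' hs' => ?_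
      obtain ⟨t', h1, h2⟩ := sim_step hs hs'
      exact (ih t' h1 s' h2).trans_lt (rk_lt h h1)
  · intro H
    classical
    refine ⟨fun n => if ∃ r v : List ℕ, n = encode (r, v) ∧ rk T x' r ≤ rk T x v then 1 else 0,
      ?_, ?_⟩
    · exact if_pos ⟨s, t, rfl, H⟩
    · rintro ⟨r, v, k⟩
      by_cases h1 : rk T x' r ≤ rk T x v
      · cases h2 : T x' (r ++ [k])
        · exact Or.inr (Or.inl rfl)
        · obtain ⟨_, ⟨k', rfl, h3⟩, h4⟩ := lt_rk h ((rk_lt h' ⟨k, rfl, h2⟩).trans_le h1)
          exact Or.inr (Or.inr ⟨k', h3, if_pos ⟨_, _, rfl, h4⟩⟩)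
      · refine Or.inl ?_
        rw [ap_def, if_neg]
        · decide
        · rintro ⟨r', v', h2, h3⟩
          obtain ⟨rfl, rfl⟩ := Prod.mk.inj (encode_injective h2)
          exact h1 h3

theorem sig_sim (hT : TD fun p : B × List ℕ => T p.1 p.2) {X : Type} [Rep X] {x' x : X → B}
    {s t : X → List ℕ} (hx' : TD x') (hx : TD x) (hs : TD s) (ht : TD t) :
    Sig fun a => Sim T (x' a) (x a) (s a) (t a) := by
  have hT' : ∀ {X : Type} [Rep X] {x : X → B} {s : X → List ℕ}, TD x → TD s →
      TD fun a => T (x a) (s a) := fun hx hs => hT.comp' (hx.pair hs)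
  unfold Sim
  refine Sig.exB (Sig.and (Sig.eq (by fun_prop) (by fun_prop)) (Sig.all (Sig.or
    (Sig.ne (by fun_prop) (by fun_prop)) (Sig.or (Sig.bool_false (hT' (by fun_prop) (by fun_prop)))
      (Sig.ex (Sig.and (Sig.bool (hT' (by fun_prop) (by fun_prop)))
        (Sig.eq (by fun_prop) (by fun_prop))))))))

/-- An enumeration of the nodes. -/
def node (i : ℕ) : List ℕ := (decode i : Option (List ℕ)).getD []

theorem node_encode (s : List ℕ) : node (encode s) = s := by simp [node]
theorem node_zero : node 0 = [] := node_encode []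

variable (T) in
/-- The sequence of ordinals that is minimised. -/
noncomputable def key (x : B) (n : ℕ) : Ordinal.{0} :=
  if n % 2 = 0 then rk T x (node (n / 2)) else (x (n / 2) : Ordinal.{0})

theorem key_even (x : B) (i : ℕ) : key T x (2 * i) = rk T x (node i) := by simp [key]
theorem key_odd (x : B) (i : ℕ) : key T x (2 * i + 1) = (x i : Ordinal.{0}) := by
  have h1 : (2 * i + 1) % 2 = 1 := by omega
  have h2 : (2 * i + 1) / 2 = i := by omega
  simp [key, h1, h2]

variable (T) in
/-- The nested sets of minimisers. -/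
def Q : ℕ → Set B
  | 0 => {x | WellFounded (ch T x)}
  | n + 1 => {x | x ∈ Q n ∧ ∀ x' ∈ Q n, key T x n ≤ key T x' n}

theorem Q_anti {m n : ℕ} (h : m ≤ n) : Q T n ⊆ Q T m := by
  induction h with
  | refl => exact fun _ h => h
  | step _ ih => exact fun x hx => ih hx.1

theorem Q_key {m n : ℕ} (h : m < n) {x x' : B} (hx : x ∈ Q T n) (hx' : x' ∈ Q T n) :
    key T x m = key T x' m :=
  le_antisymm ((Q_anti h hx).2 _ (Q_anti h hx').1) ((Q_anti h hx').2 _ (Q_anti h hx).1)

theorem Q_nonempty (h : (Q T 0).Nonempty) (n : ℕ) : (Q T n).Nonempty := by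
  induction n with
  | zero => exact h
  | succ n ih =>
    obtain ⟨x, hx, H⟩ := (wellFounded_lt (α := Ordinal.{0})).has_min
      ((fun x => key T x n) '' Q T n) (ih.image _)
    obtain ⟨x, hx, rfl⟩ := hx
    exact ⟨x, hx, fun x' hx' => not_lt.1 (H _ ⟨x', hx', rfl⟩)⟩

theorem exists_all_Q (hl : ∀ x x' σ, (∀ i < σ.length, x i = x' i) → T x σ = T x' σ)
    (h : (Q T 0).Nonempty) : ∃ x, ∀ n, x ∈ Q T n := by
  choose y hy using Q_nonempty h
  have hk : ∀ {n m m'}, n < m → n < m' → key T (y m) n = key T (y m') n := fun {n m m'} h1 h2 =>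
    Q_key (Nat.lt_succ_self n) (Q_anti h1 (hy m)) (Q_anti h2 (hy m'))
  set x : B := fun i => y (2 * i + 2) i with hx
  have hxy : ∀ i m, 2 * i + 1 < m → y m i = x i := fun i m hm => by
    have := hk hm (show 2 * i + 1 < 2 * i + 2 by omega)
    rw [key_odd, key_odd] at this
    exact_mod_cast this
  set L : List ℕ → Ordinal.{0} := fun s => key T (y (2 * encode s + 1)) (2 * encode s) with hL
  have hLy : ∀ s m, 2 * encode s < m → L s = rk T (y m) s := fun s m hm => by
    rw [hL]
    simp only
    rw [hk (Nat.lt_succ_self _) hm, key_even, node_encode]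
  have hdec : ∀ s' s, ch T x s' s → L s' < L s := by
    rintro s' s ⟨k, hk, hT⟩
    set m := 2 * encode s + 2 * encode s' + 2 * s'.length + 1
    rw [hLy s m (by omega), hLy s' m (by omega)]
    refine rk_lt (Q_anti (Nat.zero_le m) (hy m)) ⟨k, hk, ?_⟩
    rw [← hT]
    exact hl _ _ _ fun i hi => hxy i m (by omega)
  have hwf : WellFounded (ch T x) :=
    Subrelation.wf (fun {a b} hab => hdec a b hab) (InvImage.wf L wellFounded_lt)
  have hrk : ∀ s, rk T x s ≤ L s := by
    intro s
    induction s using hwf.induction with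
    | _ s ih => exact rk_le hwf fun s' hs' => (ih s' hs').trans_lt (hdec _ _ hs')
  have hkey : ∀ n, key T x n ≤ key T (y (n + 1)) n := by
    intro n
    obtain ⟨i, rfl | rfl⟩ := Nat.even_or_odd' n
    · rw [key_even, hk (Nat.lt_succ_self _)
        (show 2 * i < 2 * i + 2 * encode (node i) + 1 by omega), key_even, ← hLy _ _ (by omega)]
      exact hrk _
    · rw [key_odd, key_odd]
  refine ⟨x, fun n => ?_⟩
  induction n with
  | zero => exact hwf
  | succ n ih => exact ⟨ih, fun x' hx' => (hkey n).trans ((hy (n + 1)).2 x' hx')⟩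

theorem all_Q_iff {z : B} : (∀ n, z ∈ Q T n) ↔ WellFounded (ch T z) ∧
    ¬ ∃ x' n, WellFounded (ch T x') ∧ (∀ m < n, key T x' m ≤ key T z m) ∧
      key T x' n < key T z n := by
  constructor
  · refine fun h => ⟨h 0, ?_⟩
    rintro ⟨x', n, h1, h2, h3⟩
    have : ∀ m ≤ n, x' ∈ Q T m := by
      intro m hm
      induction m with
      | zero => exact h1
      | succ m ih =>
        exact ⟨ih (by omega), fun x'' hx'' => (h2 m (by omega)).trans ((h (m + 1)).2 _ hx'')⟩
    exact absurd ((h (n + 1)).2 _ (this n le_rfl)) (not_le.2 h3)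
  · rintro ⟨h1, h2⟩ n
    induction n with
    | zero => exact h1
    | succ n ih =>
      refine ⟨ih, fun x' hx' => not_lt.1 fun h => h2 ⟨x', n, Q_anti (Nat.zero_le _) hx',
        fun m hm => (Q_key hm hx' ih).le, h⟩⟩

end Kondo

open Kondo in
/-- Kondo and Addison: a nonempty `Π¹₁` set has a member that is a `Π¹₁` singleton. -/
theorem Sig.exists_sing {P : B → Prop} (h : Sig P) (hne : ∃ x, ¬ P x) :
    ∃ x, ¬ P x ∧ Sing x := by
  obtain ⟨T, hT, hl, hc, hP⟩ := h.tree
  have hwf : ∀ x, WellFounded (ch T x) ↔ ¬ P x := fun x => by rw [wf_iff hc, hP]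
  obtain ⟨x0, hx0⟩ := hne
  obtain ⟨x, hx⟩ := exists_all_Q hl ⟨x0, (hwf x0).2 hx0⟩
  refine ⟨x, (hwf x).1 (hx 0), ?_⟩
  have hT' : ∀ {X : Type} [Rep X] {x : X → B} {s : X → List ℕ}, TD x → TD s →
      TD fun a => T (x a) (s a) := fun hx hs => hT.comp' (hx.pair hs)
  have hnode : ∀ {X : Type} [Rep X] {n : X → ℕ}, TD n → TD fun a => node (n a) := fun hn => by
    unfold node; fun_prop
  have hS : Sig fun z : B => P z ∨ ∃ x' : B, ∃ n : ℕ, Sim T x' z [] [] ∧
      (∀ m : ℕ, n ≤ m ∨ (m % 2 = 0 ∧ Sim T x' z (node (m / 2)) (node (m / 2))) ∨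
        (m % 2 ≠ 0 ∧ ap x' (m / 2) ≤ ap z (m / 2))) ∧
      ((n % 2 = 0 ∧ ∃ k : ℕ, T z (node (n / 2) ++ [k]) = true ∧
          Sim T x' z (node (n / 2)) (node (n / 2) ++ [k])) ∨
        (n % 2 ≠ 0 ∧ ap x' (n / 2) < ap z (n / 2))) := by
    refine h.or (Sig.exB (Sig.ex (Sig.and
      (sig_sim hT (by fun_prop) (by fun_prop) (by fun_prop) (by fun_prop)) (Sig.and
      (Sig.all (Sig.or (Sig.le (by fun_prop) (by fun_prop)) (Sig.or (Sig.and
        (Sig.eq (by fun_prop) (by fun_prop))
        (sig_sim hT (by fun_prop) (by fun_prop) (hnode (by fun_prop)) (hnode (by fun_prop))))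
        (Sig.and (Sig.ne (by fun_prop) (by fun_prop)) (Sig.le (by fun_prop) (by fun_prop))))))
      (Sig.or (Sig.and (Sig.eq (by fun_prop) (by fun_prop)) (Sig.ex (Sig.and
        (Sig.bool (hT' (by fun_prop) ((hnode (by fun_prop)).append (by fun_prop))))
        (sig_sim hT (by fun_prop) (by fun_prop) (hnode (by fun_prop))
          ((hnode (by fun_prop)).append (by fun_prop))))))
        (Sig.and (Sig.ne (by fun_prop) (by fun_prop)) (Sig.lt (by fun_prop) (by fun_prop))))))))
  refine hS.of_iff fun z => ?_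
  have huniq : z = x ↔ ∀ n, z ∈ Q T n := by
    refine ⟨fun h => h ▸ hx, fun h => funext fun i => ?_⟩
    have := Q_key (Nat.lt_succ_self (2 * i + 1)) (h _) (hx _)
    rw [key_odd, key_odd] at this
    exact_mod_cast this
  rw [Ne, huniq, all_Q_iff, not_and, not_not, hwf]
  by_cases hz : P z
  · simp [hz]
  simp only [hz, false_or, not_false_eq_true, forall_true_left]
  have hzw := (hwf z).2 hz
  refine exists_congr fun x' => exists_congr fun n => ?_
  have main : WellFounded (ch T x') →
      (((∀ m : ℕ, n ≤ m ∨ (m % 2 = 0 ∧ Sim T x' z (node (m / 2)) (node (m / 2))) ∨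
        (m % 2 ≠ 0 ∧ ap x' (m / 2) ≤ ap z (m / 2))) ∧
      ((n % 2 = 0 ∧ ∃ k : ℕ, T z (node (n / 2) ++ [k]) = true ∧
          Sim T x' z (node (n / 2)) (node (n / 2) ++ [k])) ∨
        (n % 2 ≠ 0 ∧ ap x' (n / 2) < ap z (n / 2)))) ↔
      (∀ m < n, key T x' m ≤ key T z m) ∧ key T x' n < key T z n) := by
    intro hw
    refine and_congr (forall_congr' fun m => ?_) ?_
    · rw [sim_iff hw hzw]
      by_cases hm : m % 2 = 0 <;> by_cases hn : m < n <;> simp [key, hm, hn, not_lt.1, not_le.2]
    · simp only [sim_iff hw hzw]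
      by_cases hm : n % 2 = 0
      · simp only [key, hm, true_and, ne_eq, not_true_eq_false, false_and, or_false, if_true]
        constructor
        · rintro ⟨k, h1, h2⟩
          exact h2.trans_lt (rk_lt hzw ⟨k, rfl, h1⟩)
        · intro h
          obtain ⟨_, ⟨k, rfl, h1⟩, h2⟩ := lt_rk hzw h
          exact ⟨k, h1, h2⟩
      · simp [key, hm]
  constructor
  · rintro ⟨h1, h2⟩
    have hw := wf_of_acc hc (sim_acc hzw _ _ h1)
    exact ⟨hw, (main hw).1 h2⟩
  · rintro ⟨hw, h2⟩
    refine ⟨?_, (main hw).2 h2⟩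
    rw [sim_iff hw hzw, ← node_zero, ← key_even, ← key_even]
    rcases Nat.eq_zero_or_pos n with rfl | hn
    · exact h2.2.le
    · exact h2.1 0 hn

end Pool.Agent.Shared.Type2
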