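import Pool.Agent.Shared.Type2.Disc

/-!
Normal form (finite use) for oracle programs; Turing reducibility between total functions.
-/

namespace Pool.Agent.Shared.Type2

open Encodable OCode

/-- The first `s` values of `g`. -/
def pre (g : B) (s : ℕ) : List ℕ := (List.range s).map fun i => ap g i

@[fun_prop] theorem TD.pre' {X : Type} [Rep X] {g : X → B} {s : X → ℕ} (hg : TD g) (hs : TD s) :
    TD fun x => pre (g x) (s x) := by
  unfold pre; fun_prop

@[simp] theorem pre_length (g : B) (s : ℕ) : (pre g s).length = s := by simp [pre]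
@[simp] theorem pre_zero (g : B) : pre g 0 = [] := rfl
theorem pre_succ (g : B) (s : ℕ) : pre g (s + 1) = pre g s ++ [g s] := by
  simp [pre, List.range_succ]

theorem pre_getElem? (g : B) {s n : ℕ} (h : n < s) : (pre g s)[n]? = some (g n) := by
  simp [pre, h]

theorem pre_getD (g : B) {s n : ℕ} (h : n < s) (d : ℕ) : (pre g s).getD n d = g n := by
  simp [pre_getElem? g h]

theorem pre_take (g : B) {s n : ℕ} (h : n ≤ s) : (pre g s).take n = pre g n := by
  simp [pre, ← List.map_take, List.take_range, h]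

theorem pre_mono (g : B) {s t : ℕ} (h : s ≤ t) : pre g s <+: pre g t := by
  rw [← pre_take g h]; exact List.take_prefix _ _

theorem pre_congr {g g' : B} {s : ℕ} (h : ∀ i < s, g i = g' i) : pre g s = pre g' s := by
  unfold pre
  exact List.map_congr_left fun i hi => h i (List.mem_range.1 hi)

/-- `φ` approximates the program `e` from finite parts of the oracle. -/
structure Appr (φ : List ℕ → ℕ → Option ℕ) (e : OCode) : Prop where
  td : TD fun p : List ℕ × ℕ => φ p.1 p.2
  mono : ∀ {l l' n v}, l <+: l' → φ l n = some v → φ l' n = some v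
  iff : ∀ (g : B) n v, v ∈ e.eval g n ↔ ∃ s, φ (pre g s) n = some v

theorem Appr.mono' {φ e} (h : Appr φ e) {g : B} {s t n v : ℕ} (hst : s ≤ t)
    (hv : φ (pre g s) n = some v) : φ (pre g t) n = some v := h.mono (pre_mono g hst) hv

theorem Appr.app {φ e} (h : Appr φ e) {X : Type} [Rep X] {l : X → List ℕ} {n : X → ℕ}
    (hl : TD l) (hn : TD n) : TD fun x => φ (l x) (n x) :=
  h.td.comp' (f := fun x => (l x, n x)) (hl.pair hn)

/-- The test used to approximate unbounded search. -/
def rfTest (φ : List ℕ → ℕ → Option ℕ) (l : List ℕ) (a m : ℕ) : Bool :=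
  φ l (Nat.pair a m) == some 0 &&
    (List.range m).all fun j => (φ l (Nat.pair a j)).elim false fun w => decide (w ≠ 0)

theorem rfTest_iff {φ : List ℕ → ℕ → Option ℕ} {l : List ℕ} {a m : ℕ} :
    rfTest φ l a m = true ↔ φ l (Nat.pair a m) = some 0 ∧
      ∀ j < m, ∃ w, φ l (Nat.pair a j) = some w ∧ w ≠ 0 := by
  simp only [rfTest, Bool.and_eq_true, beq_iff_eq, List.all_eq_true, List.mem_range]
  refine and_congr_right fun _ => forall₂_congr fun j _ => ?_
  cases φ l (Nat.pair a j) <;> simp

theorem rfTest_unique {φ : List ℕ → ℕ → Option ℕ} {l : List ℕ} {a m m' : ℕ}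
    (h : rfTest φ l a m = true) (h' : rfTest φ l a m' = true) : m = m' := by
  rw [rfTest_iff] at h h'
  rcases lt_trichotomy m m' with H | H | H
  · obtain ⟨w, h1, h2⟩ := h'.2 m H
    rw [h.1] at h1
    exact absurd (Option.some.inj h1).symm h2
  · exact H
  · obtain ⟨w, h1, h2⟩ := h.2 m' H
    rw [h'.1] at h1
    exact absurd (Option.some.inj h1).symm h2

theorem rf_head {φ : List ℕ → ℕ → Option ℕ} {l : List ℕ} {a v : ℕ} :
    ((List.range l.length).flatMap fun m => cond (rfTest φ l a m) [m] []).head? = some v ↔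
      v < l.length ∧ rfTest φ l a v = true := by
  have key : ∀ u, u ∈ ((List.range l.length).flatMap fun m => cond (rfTest φ l a m) [m] []) ↔
      u < l.length ∧ rfTest φ l a u = true := by
    intro u
    simp only [List.mem_flatMap, List.mem_range]
    constructor
    · rintro ⟨m, hm, hu⟩
      cases h : rfTest φ l a m <;> simp [h] at hu
      subst hu
      exact ⟨hm, h⟩
    · rintro ⟨h1, h2⟩
      exact ⟨u, h1, by simp [h2]⟩
  constructor
  · intro h
    exact (key v).1 (List.mem_of_mem_head? h)
  · intro h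
    have hv := (key v).2 h
    generalize ((List.range l.length).flatMap fun m => cond (rfTest φ l a m) [m] []) = L at *
    cases L with
    | nil => simp at hv
    | cons u t =>
      have := (key u).1 (by simp)
      simp [rfTest_unique this.2 h.2]

theorem exists_appr (e : OCode) : ∃ φ, Appr φ e := by
  induction e with
  | zero => exact ⟨fun _ _ => some 0, by fun_prop, fun _ h => h, by simp [eval, eq_comm]⟩
  | succ => exact ⟨fun _ n => some (n + 1), by fun_prop, fun _ h => h, by simp [eval, eq_comm]⟩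
  | left =>
    exact ⟨fun _ n => some n.unpair.1, by fun_prop, fun _ h => h, by simp [eval, eq_comm]⟩
  | right =>
    exact ⟨fun _ n => some n.unpair.2, by fun_prop, fun _ h => h, by simp [eval, eq_comm]⟩
  | oracle =>
    refine ⟨fun l n => l[n]?, by fun_prop, ?_, fun g n v => ?_⟩
    · rintro l _ n v ⟨t, rfl⟩ h
      rw [List.getElem?_append_left (List.getElem?_eq_some_iff.1 h).1, h]
    · simp only [eval, PFun.coe_val, Part.mem_some_iff]
      constructor
      · rintro rfl
        exact ⟨n + 1, pre_getElem? g (by omega)⟩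
      · rintro ⟨s, hs⟩
        have : n < s := by simpa using (List.getElem?_eq_some_iff.1 hs).1
        rw [pre_getElem? g this] at hs
        exact (Option.some.inj hs).symm
  | pair f g hf hg =>
    obtain ⟨φ, hφ⟩ := hf
    obtain ⟨ψ, hψ⟩ := hg
    refine ⟨fun l n => (φ l n).bind fun a => (ψ l n).map fun b => Nat.pair a b, ?_, ?_,
      fun g n v => ?_⟩
    · refine TD.obind hφ.td (TD.omap (hψ.app (by fun_prop) (by fun_prop)) (by fun_prop))
    · intro l l' n v hl h
      simp only [Option.bind_eq_some_iff, Option.map_eq_some_iff] at h ⊢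
      obtain ⟨a, ha, b, hb, rfl⟩ := h
      exact ⟨a, hφ.mono hl ha, b, hψ.mono hl hb, rfl⟩
    · simp only [eval, Part.mem_bind_iff, Part.mem_map_iff, hφ.iff, hψ.iff,
        Option.bind_eq_some_iff, Option.map_eq_some_iff]
      constructor
      · rintro ⟨a, ⟨s, ha⟩, b, ⟨t, hb⟩, rfl⟩
        exact ⟨max s t, a, hφ.mono' (le_max_left _ _) ha, b, hψ.mono' (le_max_right _ _) hb, rfl⟩
      · rintro ⟨s, a, ha, b, hb, rfl⟩
        exact ⟨a, ⟨s, ha⟩, b, ⟨s, hb⟩, rfl⟩
  | comp f g hf hg =>
    obtain ⟨φ, hφ⟩ := hf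
    obtain ⟨ψ, hψ⟩ := hg
    refine ⟨fun l n => (ψ l n).bind fun a => φ l a, ?_, ?_, fun g n v => ?_⟩
    · exact TD.obind hψ.td (hφ.app (by fun_prop) (by fun_prop))
    · intro l l' n v hl h
      simp only [Option.bind_eq_some_iff] at h ⊢
      obtain ⟨a, ha, hb⟩ := h
      exact ⟨a, hψ.mono hl ha, hφ.mono hl hb⟩
    · simp only [eval, Part.mem_bind_iff, hφ.iff, hψ.iff, Option.bind_eq_some_iff]
      constructor
      · rintro ⟨a, ⟨s, ha⟩, ⟨t, hb⟩⟩
        exact ⟨max s t, a, hψ.mono' (le_max_left _ _) ha, hφ.mono' (le_max_right _ _) hb⟩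
      · rintro ⟨s, a, ha, hb⟩
        exact ⟨a, ⟨s, ha⟩, ⟨s, hb⟩⟩
  | prec f g hf hg =>
    obtain ⟨φ, hφ⟩ := hf
    obtain ⟨ψ, hψ⟩ := hg
    refine ⟨fun l p => nrec p.unpair.2 (φ l p.unpair.1)
      fun y ih => ih.bind fun i => ψ l (Nat.pair p.unpair.1 (Nat.pair y i)), ?_, ?_,
      fun g n v => ?_⟩
    · exact TD.nrec' (by fun_prop) (hφ.app (by fun_prop) (by fun_prop))
        (TD.obind (by fun_prop) (hψ.app (by fun_prop) (by fun_prop)))
    · intro l l' n v hl h
      generalize n.unpair.2 = k at *
      induction k generalizing v with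
      | zero => exact hφ.mono hl h
      | succ k ih =>
        simp only [nrec_succ, Option.bind_eq_some_iff] at h ⊢
        obtain ⟨a, ha, hb⟩ := h
        exact ⟨a, ih ha, hψ.mono hl hb⟩
    · simp only [eval]
      have mono : ∀ k {s t v}, s ≤ t → (nrec k (φ (pre g s) n.unpair.1)
          fun y ih => ih.bind fun i => ψ (pre g s) (Nat.pair n.unpair.1 (Nat.pair y i))) = some v →
          (nrec k (φ (pre g t) n.unpair.1)
          fun y ih => ih.bind fun i => ψ (pre g t) (Nat.pair n.unpair.1 (Nat.pair y i))) = some v := by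
        intro k
        induction k with
        | zero => exact fun hst h => hφ.mono' hst h
        | succ k ih =>
          intro s t v hst h
          simp only [nrec_succ, Option.bind_eq_some_iff] at h ⊢
          obtain ⟨a, ha, hb⟩ := h
          exact ⟨a, ih hst ha, hψ.mono' hst hb⟩
      generalize n.unpair.2 = k
      induction k generalizing v with
      | zero => exact hφ.iff g _ v
      | succ k ih =>
        simp only [Part.mem_bind_iff, ih, hψ.iff, nrec_succ, Option.bind_eq_some_iff]
        constructor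
        · rintro ⟨a, ⟨s, ha⟩, ⟨t, hb⟩⟩
          exact ⟨max s t, a, mono k (le_max_left _ _) ha, hψ.mono' (le_max_right _ _) hb⟩
        · rintro ⟨s, a, ha, hb⟩
          exact ⟨a, ⟨s, ha⟩, ⟨s, hb⟩⟩
  | rfind f hf =>
    obtain ⟨φ, hφ⟩ := hf
    have tmono : ∀ {l l' a m}, l <+: l' → rfTest φ l a m = true → rfTest φ l' a m = true := by
      intro l l' a m hl h
      rw [rfTest_iff] at h ⊢
      exact ⟨hφ.mono hl h.1, fun j hj => (h.2 j hj).imp fun w hw => ⟨hφ.mono hl hw.1, hw.2⟩⟩
    refine ⟨fun l a =>
      ((List.range l.length).flatMap fun m => cond (rfTest φ l a m) [m] []).head?, ?_, ?_,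
      fun g n v => ?_⟩
    · refine TD.head? (TD.flatMap (by fun_prop) (TD.cond' ?_ (by fun_prop) (by fun_prop)))
      unfold rfTest
      refine TD.and' (TD.beq' (hφ.app (by fun_prop) (by fun_prop)) (by fun_prop))
        (TD.all (by fun_prop) (TD.elim' (hφ.app (by fun_prop) (by fun_prop)) (by fun_prop)
          (by fun_prop)))
    · intro l l' n v hl h
      rw [rf_head] at h ⊢
      exact ⟨h.1.trans_le hl.length_le, tmono hl h.2⟩
    · simp only [rf_head]
      simp only [eval, Nat.mem_rfind, Part.mem_map_iff, hφ.iff, pre_length]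
      constructor
      · rintro ⟨⟨a, ⟨s, ha⟩, ha0⟩, h2⟩
        obtain rfl : a = 0 := by simpa using ha0
        have : ∀ k ≤ v, ∃ t, ∀ j < k, ∃ w, φ (pre g t) (Nat.pair n j) = some w ∧ w ≠ 0 := by
          intro k hk
          induction k with
          | zero => exact ⟨0, by simp⟩
          | succ k ih =>
            obtain ⟨t, ht⟩ := ih (by omega)
            obtain ⟨w, ⟨u, hu⟩, hw⟩ := h2 (m := k) (by omega)
            refine ⟨max t u, fun j hj => ?_⟩
            rcases Nat.lt_succ_iff_lt_or_eq.1 hj with hj | rfl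
            · exact (ht j hj).imp fun w hw => ⟨hφ.mono' (le_max_left _ _) hw.1, hw.2⟩
            · exact ⟨w, hφ.mono' (le_max_right _ _) hu, by simpa using hw⟩
        obtain ⟨t, ht⟩ := this v le_rfl
        refine ⟨max (max s t) (v + 1), by omega, rfTest_iff.2 ⟨hφ.mono' (by omega) ha,
          fun j hj => (ht j hj).imp fun w hw => ⟨hφ.mono' (by omega) hw.1, hw.2⟩⟩⟩
      · rintro ⟨s, -, h⟩
        rw [rfTest_iff] at h
        refine ⟨⟨0, ⟨s, h.1⟩, by simp⟩, fun {m} hm => ?_⟩
        obtain ⟨w, h1, h2⟩ := h.2 m hm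
        exact ⟨w, ⟨s, h1⟩, by simpa using h2⟩

/-- Turing reducibility between total functions. -/
def Red (f g : B) : Prop := TuringReducible (f : ℕ →. ℕ) (g : ℕ →. ℕ)

theorem red_iff {f g : B} : Red f g ↔ ∃ e : OCode, ∀ n, f n ∈ e.eval g n := by
  unfold Red TuringReducible
  rw [RecursiveIn.iff_nat]
  constructor
  · intro h
    obtain ⟨e, he⟩ := exists_of_recursiveIn h
    exact ⟨e, fun n => by simp [he]⟩
  · rintro ⟨e, he⟩
    exact (e.recursiveIn _).of_eq fun n => Part.eq_some_iff.2 (he n)

theorem Red.refl (f : B) : Red f f := TuringReducible.refl _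
theorem Red.trans {f g h : B} (h1 : Red f g) (h2 : Red g h) : Red f h := TuringReducible.trans h1 h2

/-- The one-point type of the oracle `g`. -/
abbrev Pt1 (g : B) : Type := {z : B // z = g}

theorem red_iff_TD {f g : B} : Red f g ↔ TD fun _ : Pt1 g => f := by
  rw [red_iff]
  refine exists_congr fun e => ⟨?_, fun h n => h ⟨g, rfl⟩ n⟩
  rintro h ⟨_, rfl⟩ n
  exact h n

@[simp] theorem nm_B (z : B) : nm z = z := rfl

theorem TD.red {X : Type} [Rep X] {F : X → B} (hF : TD F) (x : X) : Red (F x) (nm x) := by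
  obtain ⟨e, he⟩ := hF
  exact red_iff.2 ⟨e, he x⟩

theorem Red.jn {f f' g : B} (h : Red f g) (h' : Red f' g) : Red (jn f f') g := by
  rw [red_iff_TD] at *
  exact h.jn' h'

/-- Even places of a sequence. -/
def ev (z : B) : B := lam fun n => ap z (2 * n)
/-- Odd places of a sequence. -/
def od (z : B) : B := lam fun n => ap z (2 * n + 1)

@[simp] theorem ev_jn (x y : B) : ev (jn x y) = x := funext fun n => jn_even x y n
@[simp] theorem od_jn (x y : B) : od (jn x y) = y := funext fun n => jn_odd x y n
@[simp] theorem jn_ev_od (z : B) : jn (ev z) (od z) = z := by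
  funext n
  unfold jn ev od
  simp only [lam_def, ap_def]
  split_ifs with h <;> congr 1 <;> omega

@[fun_prop] theorem TD.ev' {X : Type} [Rep X] {f : X → B} (hf : TD f) : TD fun x => ev (f x) := by
  unfold ev; fun_prop
@[fun_prop] theorem TD.od' {X : Type} [Rep X] {f : X → B} (hf : TD f) : TD fun x => od (f x) := by
  unfold od; fun_prop

theorem red_jn_left (x y : B) : Red x (jn x y) := by
  simpa using (TD.ev' (X := B) TD.id').red (jn x y)
theorem red_jn_right (x y : B) : Red y (jn x y) := by
  simpa using (TD.od' (X := B) TD.id').red (jn x y)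

end Pool.Agent.Shared.Type2
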