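import Pool.Agent.Shared.Type2.Normal

/-!
Lightface analytic (`Σ¹₁`) predicates, their closure properties, tree normal form.
-/

namespace Pool.Agent.Shared.Type2

open Encodable OCode

/-- Lightface `Σ¹₁` predicates on a represented type. -/
def Sig {X : Type} [Rep X] (P : X → Prop) : Prop :=
  ∃ R : X × B × ℕ → Bool, TD R ∧ ∀ x, P x ↔ ∃ w : B, ∀ n, R (x, w, n) = true

namespace Sig

variable {X X' : Type} [Rep X] [Rep X'] {Y : Type} [Rep Y] [Primcodable Y] [Disc Y]

theorem of_iff {P Q : X → Prop} (h : Sig P) (H : ∀ x, P x ↔ Q x) : Sig Q :=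
  (funext fun x => propext (H x) : P = Q) ▸ h

theorem comp {P : X' → Prop} (h : Sig P) {f : X → X'} (hf : TD f) : Sig fun x => P (f x) := by
  obtain ⟨R, hR, h⟩ := h
  exact ⟨fun p => R (f p.1, p.2.1, p.2.2), by fun_prop, fun x => h _⟩

theorem bool {c : X → Bool} (hc : TD c) : Sig fun x => c x = true :=
  ⟨fun p => c p.1, by fun_prop, fun x => by simp⟩

theorem dec {p : X → Prop} {inst : ∀ x, Decidable (p x)}
    (hc : TD fun x => @decide (p x) (inst x)) : Sig p :=
  (bool hc).of_iff fun x => by simp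

theorem bool_false {c : X → Bool} (hc : TD c) : Sig fun x => c x = false :=
  (bool hc.not').of_iff fun x => by simp

theorem eq {f g : X → Y} (hf : TD f) (hg : TD g) : Sig fun x => f x = g x := by
  classical
  exact dec (TD.decide_eq (inst := fun _ => inferInstance) hf hg)

theorem ne {f g : X → Y} (hf : TD f) (hg : TD g) : Sig fun x => f x ≠ g x := by
  classical
  exact dec (TD.decide_ne (inst := fun _ => inferInstance) hf hg)

theorem lt {f g : X → ℕ} (hf : TD f) (hg : TD g) : Sig fun x => f x < g x :=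
  dec (TD.decide_lt (inst := fun _ => inferInstance) hf hg)

theorem le {f g : X → ℕ} (hf : TD f) (hg : TD g) : Sig fun x => f x ≤ g x :=
  dec (TD.decide_le (inst := fun _ => inferInstance) hf hg)

theorem and {P Q : X → Prop} (hP : Sig P) (hQ : Sig Q) : Sig fun x => P x ∧ Q x := by
  obtain ⟨R, hR, hP⟩ := hP
  obtain ⟨S, hS, hQ⟩ := hQ
  refine ⟨fun p => R (p.1, ev p.2.1, p.2.2) && S (p.1, od p.2.1, p.2.2), by fun_prop, fun x => ?_⟩
  simp only [hP, hQ, Bool.and_eq_true]
  constructor
  · rintro ⟨⟨u, hu⟩, v, hv⟩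
    exact ⟨jn u v, fun n => by simp [hu, hv]⟩
  · rintro ⟨w, hw⟩
    exact ⟨⟨_, fun n => (hw n).1⟩, _, fun n => (hw n).2⟩

theorem or {P Q : X → Prop} (hP : Sig P) (hQ : Sig Q) : Sig fun x => P x ∨ Q x := by
  obtain ⟨R, hR, hP⟩ := hP
  obtain ⟨S, hS, hQ⟩ := hQ
  refine ⟨fun p => if ap (ev p.2.1) 0 = 0 then R (p.1, od p.2.1, p.2.2)
    else S (p.1, od p.2.1, p.2.2), by fun_prop, fun x => ?_⟩
  simp only [hP, hQ]
  constructor
  · rintro (⟨u, hu⟩ | ⟨u, hu⟩)
    · exact ⟨jn (fun _ => 0) u, fun n => by simp [hu]⟩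
    · exact ⟨jn (fun _ => 1) u, fun n => by simp [hu]⟩
  · rintro ⟨w, hw⟩
    by_cases h : ap (ev w) 0 = 0
    · exact Or.inl ⟨od w, fun n => by simpa only [h, if_true] using hw n⟩
    · exact Or.inr ⟨od w, fun n => by simpa only [h, if_false] using hw n⟩

theorem exB {P : X → B → Prop} (h : Sig fun p : X × B => P p.1 p.2) :
    Sig fun x => ∃ u, P x u := by
  obtain ⟨R, hR, h⟩ := h
  refine ⟨fun p => R ((p.1, ev p.2.1), od p.2.1, p.2.2), by fun_prop, fun x => ?_⟩
  constructor
  · rintro ⟨u, hu⟩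
    obtain ⟨w, hw⟩ := (h (x, u)).1 hu
    exact ⟨jn u w, fun n => by simp [hw]⟩
  · rintro ⟨w, hw⟩
    exact ⟨ev w, (h (x, ev w)).2 ⟨od w, hw⟩⟩

theorem ex {P : X → Y → Prop} (h : Sig fun p : X × Y => P p.1 p.2) :
    Sig fun x => ∃ y, P x y := by
  obtain ⟨d, hd, hd'⟩ := Disc.dec (Y := Y)
  have : Sig fun p : X × B => P p.1 (d (ap p.2 0)) :=
    h.comp (f := fun p : X × B => (p.1, d (ap p.2 0))) (by fun_prop)
  refine (exB (P := fun x u => P x (d (ap u 0))) this).of_iff fun x => ⟨?_, ?_⟩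
  · rintro ⟨u, hu⟩
    exact ⟨_, hu⟩
  · rintro ⟨y, hy⟩
    exact ⟨fun _ => encode y, by simpa [hd'] using hy⟩

theorem all {P : X → Y → Prop} (h : Sig fun p : X × Y => P p.1 p.2) :
    Sig fun x => ∀ y, P x y := by
  obtain ⟨d, hd, hd'⟩ := Disc.dec (Y := Y)
  obtain ⟨R, hR, h⟩ := h
  refine ⟨fun p => R ((p.1, d p.2.2.unpair.1),
    lam fun m => ap p.2.1 (Nat.pair p.2.2.unpair.1 m), p.2.2.unpair.2), by fun_prop, fun x => ?_⟩
  constructor
  · intro H
    choose w hw using fun k => (h (x, d k)).1 (H _)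
    exact ⟨fun k => w k.unpair.1 k.unpair.2, fun n => by simpa using hw _ _⟩
  · rintro ⟨w, hw⟩ y
    refine (h (x, y)).2 ⟨fun m => w (Nat.pair (encode y) m), fun n => ?_⟩
    simpa [hd'] using hw (Nat.pair (encode y) n)

theorem imp {c : X → Bool} {Q : X → Prop} (hc : TD c) (hQ : Sig Q) :
    Sig fun x => c x = true → Q x :=
  ((bool_false hc).or hQ).of_iff fun x => by cases c x <;> simp

theorem eqB {f g : X → B} (hf : TD f) (hg : TD g) : Sig fun x => f x = g x :=
  (all (P := fun x n => ap (f x) n = ap (g x) n) (eq (by fun_prop) (by fun_prop))).of_iff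
    fun x => by simp [funext_iff]

/-- The sequence that starts with a list and is zero afterwards. -/
def ext (l : List ℕ) : B := lam fun i => l.getD i 0

@[fun_prop] theorem _root_.Pool.Agent.Shared.Type2.TD.ext' {l : X → List ℕ} (hl : TD l) :
    TD fun x => ext (l x) := by
  unfold ext; fun_prop

theorem ext_pre (w : B) {s i : ℕ} (h : i < s) : ext (pre w s) i = w i := pre_getD w h 0

theorem ext_append (l t : List ℕ) {i : ℕ} (h : i < l.length) : ext (l ++ t) i = ext l i := by
  simp [ext, List.getElem?_append_left h]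

theorem jn_congr {x x' y y' : B} {s i : ℕ} (hx : ∀ i < s, x i = x' i) (hy : ∀ i < s, y i = y' i)
    (hi : i < s) : jn x y i = jn x' y' i := by
  unfold jn
  rw [hx _ (by omega), hy _ (by omega)]

/-- Tree normal form. -/
theorem tree {P : B → Prop} (h : Sig P) : ∃ T : B → List ℕ → Bool,
    TD (fun p : B × List ℕ => T p.1 p.2) ∧
    (∀ x x' σ, (∀ i < σ.length, x i = x' i) → T x σ = T x' σ) ∧
    (∀ x σ k, T x (σ ++ [k]) = true → T x σ = true) ∧
    ∀ x, P x ↔ ∃ w : B, ∀ n, T x (pre w n) = true := by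
  obtain ⟨R, ⟨e, he⟩, h⟩ := h
  obtain ⟨φ, hφ⟩ := exists_appr e
  refine ⟨fun x σ => (List.range σ.length).all fun n =>
    decide (φ (pre (jn x (jn (ext σ) (lam fun _ => n))) σ.length) 0 ≠ some 0), ?_, ?_, ?_, ?_⟩
  · exact TD.all (by fun_prop) (TD.decide_ne (hφ.app (by fun_prop) (by fun_prop)) (by fun_prop))
  · intro x x' σ hx
    refine congrArg _ (funext fun n => ?_)
    rw [pre_congr fun i hi => jn_congr hx (fun _ _ => rfl) hi]
  · intro x σ k H
    simp only [List.all_eq_true, List.mem_range, decide_eq_true_eq, List.length_append,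
      List.length_singleton] at H ⊢
    intro n hn H'
    refine H n (by omega) (hφ.mono' (Nat.le_succ _) ?_)
    rw [← H']
    congr 1
    exact pre_congr fun i hi => jn_congr (fun _ _ => rfl)
      (fun j hj => jn_congr (fun l hl => ext_append _ _ hl) (fun _ _ => rfl) hj) hi
  · intro x
    rw [h]
    refine exists_congr fun w => ?_
    have e1 : ∀ s n, pre (jn x (jn (ext (pre w s)) (lam fun _ => n))) s = pre (nm (x, w, n)) s :=
      fun s n => pre_congr fun i hi => jn_congr (fun _ _ => rfl)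
        (fun j hj => jn_congr (fun l hl => ext_pre _ hl) (fun _ _ => rfl) hj) hi
    simp only [List.all_eq_true, List.mem_range, decide_eq_true_eq, pre_length, e1]
    constructor
    · intro H s n _ H'
      have h1 := (hφ.iff _ _ _).2 ⟨s, H'⟩
      have h2 := Part.mem_unique h1 (he (x, w, n) 0)
      simp only [H n] at h2
      exact absurd h2 (by decide)
    · intro H n
      by_contra H'
      have h2 := he (x, w, n) 0
      simp only [Bool.not_eq_true] at H'
      simp only [H'] at h2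
      obtain ⟨s, hs⟩ := (hφ.iff _ _ _).1 h2
      exact H (max s (n + 1)) n (by omega) (hφ.mono' (le_max_left _ _) hs)

end Sig

/-- A numbering of the programs. -/
def OCode.num : OCode → ℕ
  | .zero => Nat.pair 0 0
  | .succ => Nat.pair 1 0
  | .left => Nat.pair 2 0
  | .right => Nat.pair 3 0
  | .oracle => Nat.pair 4 0
  | .pair f g => Nat.pair 5 (Nat.pair f.num g.num)
  | .comp f g => Nat.pair 6 (Nat.pair f.num g.num)
  | .prec f g => Nat.pair 7 (Nat.pair f.num g.num)
  | .rfind f => Nat.pair 8 f.num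

theorem OCode.num_inj : ∀ {e e' : OCode}, e.num = e'.num → e = e' := by
  intro e
  induction e with
  | zero | succ | left | right | oracle =>
    intro e' h; cases e' <;> simp [OCode.num, Nat.pair_eq_pair] at h ⊢
  | pair f g hf hg | comp f g hf hg | prec f g hf hg =>
    intro e' h
    cases e' <;> simp [OCode.num, Nat.pair_eq_pair] at h ⊢
    exact ⟨hf h.1, hg h.2⟩
  | rfind f hf =>
    intro e' h
    cases e' <;> simp [OCode.num, Nat.pair_eq_pair] at h ⊢
    exact hf h

instance : Countable OCode := ⟨⟨OCode.num, fun _ _ h => OCode.num_inj h⟩⟩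

/-- `{y}` is a `Π¹₁` singleton. -/
def Sing (y : B) : Prop := Sig fun z : B => z ≠ y

theorem countable_sing : {y | Sing y}.Countable := by
  have : ∀ y : {y | Sing y}, ∃ e : OCode, ∃ R : B × B × ℕ → Bool,
      (∀ p n, nm (R p) n ∈ e.eval (nm p : B) n) ∧
      ∀ x, x ≠ y.1 ↔ ∃ w : B, ∀ n, R (x, w, n) = true := fun y => by
    obtain ⟨R, ⟨e, he⟩, h⟩ := y.2
    exact ⟨e, R, he, h⟩
  choose e R he h using this
  refine Function.Injective.countable (f := e) fun y y' H => ?_
  have hR : R y = R y' := funext fun p => by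
    have h1 := he y p 0
    rw [H] at h1
    exact encode_injective (Part.mem_unique h1 (he y' p 0))
  by_contra hne
  have h1 := (h y y'.1).1 fun h => hne (Subtype.ext h.symm)
  rw [hR] at h1
  exact (h y' y'.1).2 h1 rfl

theorem Sing.jn {x y : B} (hx : Sing x) (hy : Sing y) : Sing (jn x y) := by
  refine ((hx.comp (f := ev) (by fun_prop)).or (hy.comp (f := od) (by fun_prop))).of_iff
    fun z => ?_
  rw [← not_and_or, not_iff_not]
  constructor
  · rintro ⟨rfl, rfl⟩
    simp
  · rintro rfl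
    simp

end Pool.Agent.Shared.Type2
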